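import Mathlib
import Pool.Agent.Lib.H80Gallai
import Pool.Agent.T3.Gal

/-!
# HM: the perfect matchings of the complement of a critical graph with `2 k + 1` vertices
-/

set_option autoImplicit false

namespace Pool.Agent.HM

open Finset SimpleGraph Pool.Agent.Lib.H80

variable {V : Type}

theorem gallai_sing [Fintype V] {G : SimpleGraph V} {k : ℕ} (hk : ¬ G.Colorable k)
    (hcrit : ∀ v, (G.induce {w | w ≠ v}).Colorable k) (hconn : Gᶜ.Preconnected)
    (hn : Fintype.card V = 2 * k + 1) (v : V) :
    ∃ c : V → Fin (k + 1), Proper G c ∧ (Sing c).card = 1 ∧ v ∈ Sing c := by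
  classical
  have hP : ∀ a : V, ∃ P : V → Fin (k + 1), Proper G P ∧ a ∈ Sing P := by
    intro a
    obtain ⟨C⟩ := hcrit a
    refine ⟨fun w => if h : w = a then Fin.last k else Fin.castSucc (C ⟨w, h⟩), ?_, ?_⟩
    · intro u v huv
      by_cases hu : u = a
      · by_cases hv : v = a
        · exact absurd (hu.trans hv.symm) (G.ne_of_adj huv)
        · simp only [hu, hv, dif_pos, dif_neg, not_false_eq_true]
          exact (Fin.castSucc_lt_last _).ne'
      · by_cases hv : v = a
        · simp only [hu, hv, dif_pos, dif_neg, not_false_eq_true]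
          exact (Fin.castSucc_lt_last _).ne
        · simp only [hu, hv, dif_neg, not_false_eq_true]
          intro h
          have h1 := Fin.castSucc_injective _ h
          exact C.valid (v := ⟨u, hu⟩) (w := ⟨v, hv⟩) huv h1
    · rw [mem_sing]
      intro w hw
      by_contra hwa
      simp only [hwa, dif_pos, dif_neg, not_false_eq_true] at hw
      exact (Fin.castSucc_lt_last _).ne hw
  have hcol : G.Colorable (k + 1) := by
    obtain ⟨P, h1, -⟩ := hP v
    exact ⟨SimpleGraph.Coloring.mk P (fun {u v} huv => h1 u v huv)⟩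
  obtain ⟨c0, hc0, hs0⟩ := gallai_core hk hcol hconn (Or.inr hP)
  have hmin : ∀ c : V → Fin (k + 1), Proper G c → 1 ≤ (Sing c).card := by
    intro c hc
    have := card_of_sing hk hc
    rw [hn] at this
    omega
  have hcs0 : (Sing c0).card = 1 := le_antisymm hs0 (hmin c0 hc0)
  have ex : ∀ c P : V → Fin (k + 1), Proper G c → (Sing c).card = 1 → Proper G P → ∀ x ∈ Sing c,
      ∃ z ∈ Sing P, (x ∈ Sing P → z = x) ∧
        (∃ c' : V → Fin (k + 1), Proper G c' ∧ Sing c' = insert z ((Sing c).erase x)) ∧
        (∃ P' : V → Fin (k + 1), Proper G P' ∧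
          (Sing P' = (Sing P).erase z ∨ Sing P' = insert x ((Sing P).erase z)) ∧
          ∀ u v, c u = c v → P u = P v → P' u = P' v) := fun c P hc hcs hP x hx =>
    exchange hk hmin (Fintype.card (V × V)) c P hc hcs hP (by omega) x hx
  let D : V → Prop := fun v => ∃ c : V → Fin (k + 1), Proper G c ∧ (Sing c).card = 1 ∧ v ∈ Sing c
  have hDclosed : ∀ x a, D x → Gᶜ.Adj x a → D a := by
    rintro x a ⟨c, hc, hcs, hx⟩ hxa
    by_contra ha
    have hexa : ∃ t, ∃ P : V → Fin (k + 1), Proper G P ∧ a ∈ Sing P ∧ (Sing P).card = t := by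
      obtain ⟨P, hP, haP⟩ := hP a
      exact ⟨_, P, hP, haP, rfl⟩
    obtain ⟨P, hP, haP, hPt⟩ := Nat.find_spec hexa
    have hPmin : ∀ Q : V → Fin (k + 1), Proper G Q → a ∈ Sing Q → (Sing P).card ≤ (Sing Q).card := by
      intro Q hQ haQ
      rw [hPt]
      exact Nat.find_min' hexa ⟨Q, hQ, haQ, rfl⟩
    obtain ⟨z, hzP, -, ⟨c', hc', hSc'⟩, ⟨P', hP', hSP', -⟩⟩ := ex c P hc hcs hP x hx
    have hza : z ≠ a := by
      rintro rfl
      apply ha
      refine ⟨c', hc', ?_, by rw [hSc']; exact Finset.mem_insert_self _ _⟩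
      apply le_antisymm _ (hmin c' hc')
      rw [hSc']
      refine (Finset.card_insert_le _ _).trans ?_
      rw [Finset.card_erase_of_mem hx]
      omega
    rcases hSP' with hSP' | hSP'
    · have h1 := hPmin P' hP' (by rw [hSP']; exact Finset.mem_erase.2 ⟨hza.symm, haP⟩)
      rw [hSP', Finset.card_erase_of_mem hzP] at h1
      have : 0 < (Sing P).card := Finset.card_pos.2 ⟨z, hzP⟩
      omega
    · have h1 : a ∈ Sing P' := by
        rw [hSP']
        exact Finset.mem_insert_of_mem (Finset.mem_erase.2 ⟨hza.symm, haP⟩)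
      have h2 : x ∈ Sing P' := by
        rw [hSP']
        exact Finset.mem_insert_self _ _
      exact hxa.2 (adj_of_sing hk hP' h2 h1 hxa.1)
  have hreach : ∀ x y, Gᶜ.Reachable x y → D x → D y := by
    rintro x y ⟨w⟩ hx
    induction w with
    | nil => exact hx
    | cons h _ ih => exact ih (hDclosed _ _ hx h)
  obtain ⟨x0, hx0⟩ : ∃ x0, x0 ∈ Sing c0 := by
    obtain ⟨x0, hx0⟩ := Finset.card_eq_one.1 hcs0
    exact ⟨x0, by rw [hx0]; exact Finset.mem_singleton_self _⟩
  exact hreach x0 v (hconn x0 v) ⟨c0, hc0, hcs0, hx0⟩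

/-- a perfect matching of the complement missing only `v` -/
theorem gallai_all [Fintype V] {G : SimpleGraph V} {k : ℕ} (hk : ¬ G.Colorable k)
    (hcrit : ∀ v, (G.induce {w | w ≠ v}).Colorable k) (hconn : Gᶜ.Preconnected)
    (hn : Fintype.card V = 2 * k + 1) (v : V) :
    ∃ π : V → V, π v = v ∧ (∀ w, π (π w) = w) ∧ (∀ w, w ≠ v → π w ≠ w) ∧
      ∀ w, ¬ G.Adj w (π w) := by
  classical
  obtain ⟨c, hc, hcs, hv⟩ := gallai_sing hk hcrit hconn hn v
  have hsurj : ∀ i, ∃ u, c u = i := fun i => exists_of_color hk hc i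
  have h1 : Fintype.card V = ∑ i : Fin (k + 1), (univ.filter (fun v => c v = i)).card := by
    rw [← Finset.card_univ]
    exact Finset.card_eq_sum_card_fiberwise (fun _ _ => Finset.mem_coe.2 (Finset.mem_univ _))
  have hS : ∀ x ∈ Sing c, x = v := by
    obtain ⟨x0, hx0⟩ := Finset.card_eq_one.1 hcs
    intro x hx
    rw [hx0, Finset.mem_singleton] at hx hv
    rw [hx, hv]
  have h2 : ∀ i, i ≠ c v → 2 ≤ (univ.filter (fun v => c v = i)).card := by
    intro i hi
    obtain ⟨u, hu⟩ := hsurj i
    have huS : u ∉ Sing c := fun h => hi (by rw [← hu, hS u h])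
    rw [mem_sing] at huS
    push Not at huS
    obtain ⟨w, hw, hwu⟩ := huS
    exact Finset.one_lt_card.2 ⟨u, by simp [hu], w, by simp [hw, hu], hwu.symm⟩
  have h3 : 1 ≤ (univ.filter (fun w => c w = c v)).card :=
    Finset.card_pos.2 ⟨v, by simp⟩
  -- all other classes have exactly two elements
  have h4 : ∀ i, i ≠ c v → (univ.filter (fun v => c v = i)).card = 2 := by
    intro i hi
    by_contra hne
    have h5 : 3 ≤ (univ.filter (fun v => c v = i)).card := by
      have := h2 i hi
      omega
    have h6 : ∑ j : Fin (k + 1), (if j = c v then 1 else if j = i then 3 else 2) ≤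
        ∑ i : Fin (k + 1), (univ.filter (fun v => c v = i)).card := by
      apply Finset.sum_le_sum
      intro j _
      split_ifs with hj hj'
      · rw [hj]; exact h3
      · rw [hj']; exact h5
      · exact h2 j hj
    have h7 : ∑ j : Fin (k + 1), (if j = c v then 1 else if j = i then 3 else 2) =
        2 * (k + 1) := by
      have e1 : ∑ j : Fin (k + 1), ((if j = c v then 1 else if j = i then 3 else 2) +
          (if j = c v then 1 else 0)) = ∑ j : Fin (k + 1), (2 + if j = i then 1 else 0) := by
        apply Finset.sum_congr rfl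
        intro j _
        by_cases hj : j = c v
        · have : j ≠ i := fun e => hi (e.symm.trans hj)
          simp [hj, hi.symm]
        · by_cases hj' : j = i
          · simp [hj', hi]
          · simp [hj, hj']
      rw [Finset.sum_add_distrib, Finset.sum_add_distrib] at e1
      simp only [Finset.sum_ite_eq', Finset.mem_univ, if_true, Finset.sum_const, Finset.card_univ,
        Fintype.card_fin, smul_eq_mul] at e1
      omega
    rw [← h1, h7, hn] at h6
    omega
  have hex : ∀ w, w ≠ v → ∃ w', w' ≠ w ∧ c w' = c w ∧ ∀ x, c x = c w → x = w ∨ x = w' := by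
    intro w hw
    have hwc : c w ≠ c v := fun h => hw (mem_sing.1 hv w h)
    obtain ⟨x, y, hxy, he⟩ := Finset.card_eq_two.1 (h4 (c w) hwc)
    have hall : ∀ z, c z = c w → z = x ∨ z = y := by
      intro z hz
      have : z ∈ univ.filter (fun v => c v = c w) := by simpa using hz
      rw [he] at this
      simpa using this
    have hx : c x = c w := by
      have : x ∈ univ.filter (fun v => c v = c w) := by rw [he]; simp
      simpa using this
    have hy : c y = c w := by
      have : y ∈ univ.filter (fun v => c v = c w) := by rw [he]; simp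
      simpa using this
    rcases hall w rfl with rfl | rfl
    · exact ⟨y, hxy.symm, hy, hall⟩
    · exact ⟨x, hxy, hx, fun z hz => (hall z hz).symm⟩
  choose! m hm1 hm2 hm3 using hex
  have hmv : ∀ w, w ≠ v → m w ≠ v := by
    intro w hw he
    have := hm2 w hw
    rw [he] at this
    exact hw (mem_sing.1 hv w this.symm)
  refine ⟨fun w => if w = v then v else m w, by simp, ?_, ?_, ?_⟩
  · intro w
    by_cases hw : w = v
    · simp [hw]
    · have hw' := hmv w hw
      simp only [hw, if_false, hw']
      rcases hm3 (m w) hw' w (hm2 w hw).symm with h | h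
      · exact absurd h.symm (hm1 w hw)
      · exact h.symm
  · intro w hw
    simp only [hw, if_false]
    exact hm1 w hw
  · intro w
    by_cases hw : w = v
    · simp only [hw, if_true]
      exact G.loopless.irrefl _
    · simp only [hw, if_false]
      exact fun h => hc _ _ h (hm2 w hw).symm

end Pool.Agent.HM
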