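import Mathlib
import Pool.Agent.CA31.Defs
import Pool.Agent.T3.Gal

/-!
# HM: chromatic numbers of vertex subsets

`th G S` is the least number of colours of a proper colouring of `G[S]`.
-/

set_option autoImplicit false

namespace Pool.Agent.HM

open Finset Pool.Agent.CA31
open scoped Classical

variable {V : Type} {G : SimpleGraph V}

theorem colOn_card (S : Finset V) : ColOn G S S.card := by
  refine ⟨fun v => if h : v ∈ S then (S.equivFin ⟨v, h⟩ : ℕ) else 0, ?_, ?_⟩
  · intro v hv
    simp only [hv, dif_pos]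
    exact (S.equivFin ⟨v, hv⟩).2
  · intro u hu v hv huv
    simp only [hu, hv, dif_pos]
    intro he
    have h1 := S.equivFin.injective (Fin.ext he)
    exact huv.ne (Subtype.ext_iff.1 h1)

theorem colOn_mono {S T : Finset V} {a b : ℕ} (h : ColOn G T b) (hST : S ⊆ T) (hab : b ≤ a) :
    ColOn G S a := by
  obtain ⟨φ, h1, h2⟩ := h
  exact ⟨φ, fun v hv => (h1 v (hST hv)).trans_le hab,
    fun u hu v hv huv => h2 u (hST hu) v (hST hv) huv⟩

/-- chromatic number of `G[S]` -/
noncomputable def th (G : SimpleGraph V) (S : Finset V) : ℕ := sInf {k | ColOn G S k}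

theorem th_spec (G : SimpleGraph V) (S : Finset V) : ColOn G S (th G S) :=
  Nat.sInf_mem (s := {k | ColOn G S k}) ⟨S.card, colOn_card S⟩

theorem th_le_iff {S : Finset V} {k : ℕ} : th G S ≤ k ↔ ColOn G S k :=
  ⟨fun h => colOn_mono (th_spec G S) (Finset.Subset.refl _) h, fun h => Nat.sInf_le h⟩

theorem th_le_card (S : Finset V) : th G S ≤ S.card := th_le_iff.2 (colOn_card S)

theorem th_mono {S T : Finset V} (h : S ⊆ T) : th G S ≤ th G T :=
  th_le_iff.2 (colOn_mono (th_spec G T) h le_rfl)

theorem th_empty : th G ∅ = 0 := by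
  have := th_le_card (G := G) ∅
  simpa using this

/-- any proper colouring bounds the chromatic number by the number of its colours -/
theorem th_le_image {α : Type} [DecidableEq α] {A : Finset V} (φ : V → α)
    (h : ∀ u ∈ A, ∀ v ∈ A, G.Adj u v → φ u ≠ φ v) : th G A ≤ (A.image φ).card := by
  rw [th_le_iff]
  set C := A.image φ with hC
  have hm : ∀ v ∈ A, φ v ∈ C := fun v hv => mem_image_of_mem _ hv
  refine ⟨fun v => if h : φ v ∈ C then (C.equivFin ⟨φ v, h⟩ : ℕ) else 0, ?_, ?_⟩
  · intro v hv
    simp only [hm v hv, dif_pos]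
    exact (C.equivFin ⟨φ v, hm v hv⟩).2
  · intro u hu v hv huv
    simp only [hm u hu, hm v hv, dif_pos]
    intro he
    have h1 := C.equivFin.injective (Fin.ext he)
    exact h u hu v hv huv (Subtype.ext_iff.1 h1)

theorem th_union_le (S T : Finset V) : th G (S ∪ T) ≤ th G S + th G T := by
  rw [th_le_iff]
  obtain ⟨φ, h1, h2⟩ := th_spec G S
  obtain ⟨ψ, h3, h4⟩ := th_spec G T
  refine ⟨fun v => if v ∈ S then φ v else th G S + ψ v, ?_, ?_⟩
  · intro v hv
    by_cases hvS : v ∈ S
    · simp only [hvS, if_true]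
      have := h1 v hvS
      omega
    · simp only [hvS, if_false]
      have := h3 v ((mem_union.1 hv).resolve_left hvS)
      omega
  · intro u hu v hv huv
    by_cases huS : u ∈ S <;> by_cases hvS : v ∈ S
    · simp only [huS, hvS, if_true]
      exact h2 u huS v hvS huv
    · simp only [huS, hvS, if_true, if_false]
      have := h1 u huS
      omega
    · simp only [huS, hvS, if_true, if_false]
      have := h1 v hvS
      omega
    · simp only [huS, hvS, if_false]
      have := h4 u ((mem_union.1 hu).resolve_left huS) v ((mem_union.1 hv).resolve_left hvS) huv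
      omega

theorem th_biUnion_le {ι : Type} (J : Finset ι) (D : ι → Finset V) :
    th G (J.biUnion D) ≤ ∑ i ∈ J, th G (D i) := by
  induction J using Finset.induction_on with
  | empty => simp [th_empty]
  | insert a J ha ih =>
    rw [biUnion_insert, sum_insert ha]
    exact (th_union_le _ _).trans (by omega)

theorem th_join_ge {A B : Finset V} (hj : ∀ a ∈ A, ∀ b ∈ B, G.Adj a b) :
    th G A + th G B ≤ th G (A ∪ B) := by
  obtain ⟨φ, h1, h2⟩ := th_spec G (A ∪ B)
  have hA : th G A ≤ (A.image φ).card := th_le_image φ (fun u hu v hv huv =>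
    h2 u (mem_union_left _ hu) v (mem_union_left _ hv) huv)
  have hB : th G B ≤ (B.image φ).card := th_le_image φ (fun u hu v hv huv =>
    h2 u (mem_union_right _ hu) v (mem_union_right _ hv) huv)
  have hd : Disjoint (A.image φ) (B.image φ) := by
    rw [Finset.disjoint_left]
    intro c hc hc'
    obtain ⟨a, ha, rfl⟩ := mem_image.1 hc
    obtain ⟨b, hb, hab⟩ := mem_image.1 hc'
    exact h2 a (mem_union_left _ ha) b (mem_union_right _ hb) (hj a ha b hb) hab.symm
  have hsub : A.image φ ∪ B.image φ ⊆ Finset.range (th G (A ∪ B)) := by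
    rw [← image_union]
    intro c hc
    obtain ⟨a, ha, rfl⟩ := mem_image.1 hc
    exact Finset.mem_range.2 (h1 a ha)
  have := Finset.card_le_card hsub
  rw [card_union_of_disjoint hd, card_range] at this
  omega

theorem th_biUnion_ge {ι : Type} (J : Finset ι) (D : ι → Finset V)
    (hj : ∀ i ∈ J, ∀ j ∈ J, i ≠ j → ∀ a ∈ D i, ∀ b ∈ D j, G.Adj a b) :
    ∑ i ∈ J, th G (D i) ≤ th G (J.biUnion D) := by
  induction J using Finset.induction_on with
  | empty => simp
  | insert a J ha ih =>
    rw [biUnion_insert, sum_insert ha]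
    refine le_trans ?_ (th_join_ge ?_)
    · have := ih (fun i hi j hj' hij => hj i (mem_insert_of_mem hi) j (mem_insert_of_mem hj') hij)
      omega
    · intro x hx y hy
      obtain ⟨j, hjJ, hyj⟩ := mem_biUnion.1 hy
      exact hj a (mem_insert_self _ _) j (mem_insert_of_mem hjJ)
        (fun e => ha (e ▸ hjJ)) x hx y hyj

theorem th_le_one {S : Finset V} (h : ∀ u ∈ S, ∀ v ∈ S, ¬ G.Adj u v) : th G S ≤ 1 :=
  th_le_iff.2 ⟨fun _ => 0, fun _ _ => Nat.zero_lt_one, fun u hu v hv huv => absurd huv (h u hu v hv)⟩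

theorem one_le_th {S : Finset V} (h : S.Nonempty) : 1 ≤ th G S := by
  obtain ⟨v, hv⟩ := h
  obtain ⟨φ, h1, -⟩ := th_spec G S
  have := h1 v hv
  omega

theorem th_pair_le {u v : V} (h : ¬ G.Adj u v) : th G {u, v} ≤ 1 := by
  apply th_le_one
  intro a ha b hb
  rw [mem_insert, mem_singleton] at ha hb
  rcases ha with rfl | rfl <;> rcases hb with rfl | rfl
  · exact G.loopless.irrefl _
  · exact h
  · exact fun e => h e.symm
  · exact G.loopless.irrefl _

/-- a nonadjacent pair saves one colour -/
theorem th_succ_le_card {S : Finset V} {u v : V} (hu : u ∈ S) (hv : v ∈ S) (huv : u ≠ v)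
    (h : ¬ G.Adj u v) : th G S + 1 ≤ S.card := by
  have hsub : S ⊆ {u, v} ∪ (S \ {u, v}) := by
    intro x hx
    by_cases hx' : x ∈ ({u, v} : Finset V)
    · exact mem_union_left _ hx'
    · exact mem_union_right _ (mem_sdiff.2 ⟨hx, hx'⟩)
  have h1 := (th_mono (G := G) hsub).trans (th_union_le _ _)
  have h2 := th_pair_le h
  have h3 := th_le_card (G := G) (S \ {u, v})
  have h4 : ({u, v} : Finset V) ⊆ S := by
    intro x hx
    rw [mem_insert, mem_singleton] at hx
    rcases hx with rfl | rfl
    · exact hu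
    · exact hv
  have h5 := card_sdiff_add_card_eq_card h4
  have h6 : ({u, v} : Finset V).card = 2 := card_pair huv
  omega

theorem th_erase_ge (S : Finset V) (d : V) : th G S ≤ th G (S.erase d) + 1 := by
  have hsub : S ⊆ (S.erase d) ∪ {d} := by
    intro x hx
    by_cases hx' : x = d
    · exact mem_union_right _ (mem_singleton.2 hx')
    · exact mem_union_left _ (mem_erase.2 ⟨hx', hx⟩)
  have h1 := (th_mono (G := G) hsub).trans (th_union_le _ _)
  have h2 : th G {d} ≤ 1 := by simpa using th_le_card (G := G) {d}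
  omega

/-- Gallai's bound for critical subsets with connected complement -/
theorem gallai_sub {S : Finset V} (hne : S.Nonempty)
    (hcrit : ∀ d ∈ S, th G (S.erase d) + 1 ≤ th G S)
    (hconn : ((G.induce (S : Set V))ᶜ).Preconnected) : 2 * th G S ≤ S.card + 1 := by
  obtain ⟨k, hk⟩ : ∃ k, th G S = k + 1 := ⟨th G S - 1, by have := one_le_th (G := G) hne; omega⟩
  have hkc : ¬ (G.induce (S : Set V)).Colorable k := by
    rintro ⟨C⟩
    have : ColOn G S k := by
      refine ⟨fun v => if h : v ∈ S then (C ⟨v, h⟩ : ℕ) else 0, ?_, ?_⟩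
      · intro v hv
        simp only [hv, dif_pos]
        exact (C ⟨v, hv⟩).2
      · intro u hu v hv huv
        simp only [hu, hv, dif_pos]
        intro he
        exact C.valid (show (G.induce (S : Set V)).Adj ⟨u, hu⟩ ⟨v, hv⟩ from huv) (Fin.ext he)
    have := th_le_iff.2 this
    omega
  have hcr : ∀ v : (S : Set V), ((G.induce (S : Set V)).induce {w | w ≠ v}).Colorable k := by
    intro v
    have h1 : ColOn G (S.erase v.1) k := th_le_iff.1 (by have := hcrit v.1 v.2; omega)
    obtain ⟨φ, h2, h3⟩ := h1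
    have hmem : ∀ w : {w : (S : Set V) | w ≠ v}, w.1.1 ∈ S.erase v.1 := fun w =>
      mem_erase.2 ⟨fun e => w.2 (Subtype.ext e), w.1.2⟩
    refine ⟨SimpleGraph.Coloring.mk (fun w => (⟨φ w.1.1, h2 _ (hmem w)⟩ : Fin k)) ?_⟩
    intro u w huw he
    exact h3 _ (hmem u) _ (hmem w) huw (congrArg Fin.val he)
  have h1 := Pool.Agent.T3.gallai_card hkc hcr hconn
  have h2 : Fintype.card (S : Set V) = S.card := by
    rw [← Nat.card_eq_fintype_card, Nat.card_eq_card_toFinset]
    simp
  rw [h2] at h1
  omega

end Pool.Agent.HM
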