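import Mathlib
import Pool.Agent.CA72.MinCE
import Pool.Agent.HM.Th

/-!
# HM: complete minors as families of bags
-/

set_option autoImplicit false

namespace Pool.Agent.HM

open Finset Pool.Agent.CA31 Pool.Agent.CA72
open scoped Classical

variable {V : Type} {G : SimpleGraph V}

/-- `G[B]` is connected (and `B` nonempty) -/
def Conn (G : SimpleGraph V) (B : Finset V) : Prop := (G.induce (B : Set V)).Connected

/-- there is an edge between `B` and `C` -/
def Touch (G : SimpleGraph V) (B C : Finset V) : Prop := ∃ u ∈ B, ∃ v ∈ C, G.Adj u v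

theorem Touch.symm {B C : Finset V} (h : Touch G B C) : Touch G C B := by
  obtain ⟨u, hu, v, hv, huv⟩ := h
  exact ⟨v, hv, u, hu, huv.symm⟩

theorem Touch.mono {B C B' C' : Finset V} (h : Touch G B C) (hB : B ⊆ B') (hC : C ⊆ C') :
    Touch G B' C' := by
  obtain ⟨u, hu, v, hv, huv⟩ := h
  exact ⟨u, hB hu, v, hC hv, huv⟩

theorem Conn.nonempty {B : Finset V} (h : Conn G B) : B.Nonempty := by
  obtain ⟨v, hv⟩ := SimpleGraph.Connected.nonempty h
  exact ⟨v, hv⟩

theorem conn_single (v : V) : Conn G {v} := by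
  unfold Conn
  rw [coe_singleton]
  exact singleton_conn G v

theorem conn_union' {B C : Finset V} (hB : Conn G B) (hC : Conn G C) (h : Touch G B C) :
    Conn G (B ∪ C) := by
  unfold Conn at *
  rw [coe_union]
  obtain ⟨u, hu, v, hv, huv⟩ := h
  exact SimpleGraph.connected_induce_union hB.preconnected hC.preconnected hu hv huv

theorem conn_pair {u v : V} (h : G.Adj u v) : Conn G {u, v} := by
  have := conn_union' (G := G) (conn_single u) (conn_single v)
    ⟨u, mem_singleton_self _, v, mem_singleton_self _, h⟩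
  rwa [← Finset.insert_eq] at this

/-- a complete minor, as a family of bags -/
def IsM (G : SimpleGraph V) (F : Finset (Finset V)) : Prop :=
  (∀ B ∈ F, Conn G B) ∧ ∀ B ∈ F, ∀ C ∈ F, B ≠ C → Disjoint B C ∧ Touch G B C

theorem IsM.sub {F F' : Finset (Finset V)} (h : IsM G F) (hF : F' ⊆ F) : IsM G F' :=
  ⟨fun B hB => h.1 B (hF hB), fun B hB C hC hBC => h.2 B (hF hB) C (hF hC) hBC⟩

theorem IsM.union {F F' : Finset (Finset V)} (h : IsM G F) (h' : IsM G F')
    (hd : ∀ B ∈ F, ∀ C ∈ F', Disjoint B C) (ht : ∀ B ∈ F, ∀ C ∈ F', Touch G B C) :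
    IsM G (F ∪ F') ∧ (F ∪ F').card = F.card + F'.card := by
  refine ⟨⟨?_, ?_⟩, ?_⟩
  · intro B hB
    rcases mem_union.1 hB with hB | hB
    · exact h.1 B hB
    · exact h'.1 B hB
  · intro B hB C hC hBC
    rcases mem_union.1 hB with hB | hB <;> rcases mem_union.1 hC with hC | hC
    · exact h.2 B hB C hC hBC
    · exact ⟨hd B hB C hC, ht B hB C hC⟩
    · exact ⟨(hd C hC B hB).symm, (ht C hC B hB).symm⟩
    · exact h'.2 B hB C hC hBC
  · apply card_union_of_disjoint
    rw [Finset.disjoint_left]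
    intro B hB hB'
    obtain ⟨v, hv⟩ := (h.1 B hB).nonempty
    exact Finset.disjoint_left.1 (hd B hB B hB') hv hv

theorem isM_single {B : Finset V} (h : Conn G B) : IsM G {B} := by
  refine ⟨?_, ?_⟩
  · intro C hC
    rw [mem_singleton] at hC
    rwa [hC]
  · intro C hC D hD hCD
    rw [mem_singleton] at hC hD
    exact absurd (hC.trans hD.symm) hCD

theorem isM_empty : IsM G ∅ := ⟨fun B hB => absurd hB (notMem_empty _), fun B hB => absurd hB (notMem_empty _)⟩

theorem IsM.insert {F : Finset (Finset V)} (h : IsM G F) {B : Finset V} (hB : Conn G B)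
    (hd : ∀ C ∈ F, Disjoint B C) (ht : ∀ C ∈ F, Touch G B C) :
    IsM G (insert B F) ∧ (insert B F).card = F.card + 1 := by
  have := (isM_single hB).union h (by
    intro X hX C hC
    rw [mem_singleton] at hX
    rw [hX]; exact hd C hC) (by
    intro X hX C hC
    rw [mem_singleton] at hX
    rw [hX]; exact ht C hC)
  rw [← Finset.insert_eq, card_singleton] at this
  exact ⟨this.1, by rw [this.2]; omega⟩

theorem IsM.hasMinor {F : Finset (Finset V)} (h : IsM G F) : HasMinor G F.card := by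
  let e := F.equivFin.symm
  refine ⟨fun i => ((e i).1 : Set V), fun i => h.1 _ (e i).2, ?_, ?_⟩
  · intro i j hij
    have hne : (e i).1 ≠ (e j).1 := fun he => hij (e.injective (Subtype.ext he))
    rw [Finset.disjoint_coe]
    exact (h.2 _ (e i).2 _ (e j).2 hne).1
  · intro i j hij
    have hne : (e i).1 ≠ (e j).1 := fun he => hij (e.injective (Subtype.ext he))
    obtain ⟨u, hu, v, hv, huv⟩ := (h.2 _ (e i).2 _ (e j).2 hne).2
    exact ⟨u, hu, v, hv, huv⟩

theorem exists_isM [Fintype V] {m : ℕ} {S : Finset V} (h : HasMinor (G.induce (S : Set V)) m) :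
    ∃ F : Finset (Finset V), IsM G F ∧ (∀ B ∈ F, B ⊆ S) ∧ F.card = m := by
  obtain ⟨f, h1, h2, h3⟩ := h
  let g : Fin m → Finset V := fun i => univ.filter (fun v => ∃ w ∈ f i, w.1 = v)
  have hg : ∀ i, ((g i : Finset V) : Set V) = Subtype.val '' (f i) := by
    intro i
    ext v
    simp [g]
  have hmem : ∀ i (w : (S : Set V)), w ∈ f i → w.1 ∈ g i := fun i w hw => by
    simp only [g, mem_filter, mem_univ, true_and]
    exact ⟨w, hw, rfl⟩
  have hdis : ∀ i j, i ≠ j → Disjoint (g i) (g j) := by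
    intro i j hij
    rw [Finset.disjoint_left]
    intro v hv hv'
    simp only [g, mem_filter, mem_univ, true_and] at hv hv'
    obtain ⟨w, hw, rfl⟩ := hv
    obtain ⟨w', hw', he⟩ := hv'
    have : w' = w := Subtype.ext he
    subst this
    exact Set.disjoint_left.1 (h2 i j hij) hw hw'
  have hne : ∀ i, (g i).Nonempty := by
    intro i
    obtain ⟨w, hw⟩ := (h1 i).nonempty
    exact ⟨w.1, hmem i w hw⟩
  have hinj : Function.Injective g := by
    intro i j hij
    by_contra hne'
    obtain ⟨v, hv⟩ := hne i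
    exact Finset.disjoint_left.1 (hdis i j hne') hv (hij ▸ hv)
  refine ⟨univ.image g, ⟨?_, ?_⟩, ?_, ?_⟩
  · intro B hB
    obtain ⟨i, -, rfl⟩ := mem_image.1 hB
    unfold Conn
    rw [hg i]
    let e : ((G.induce (S : Set V)).induce (f i)) →g (G.induce (Subtype.val '' f i)) :=
      { toFun := fun x => ⟨x.1.1, x.1, x.2, rfl⟩
        map_rel' := fun {x y} hxy => hxy }
    refine SimpleGraph.Connected.map e ?_ (h1 i)
    rintro ⟨_, w, hw, rfl⟩
    exact ⟨⟨w, hw⟩, rfl⟩
  · intro B hB C hC hBC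
    obtain ⟨i, -, rfl⟩ := mem_image.1 hB
    obtain ⟨j, -, rfl⟩ := mem_image.1 hC
    have hij : i ≠ j := fun e => hBC (by rw [e])
    refine ⟨hdis i j hij, ?_⟩
    obtain ⟨u, hu, v, hv, huv⟩ := h3 i j hij
    exact ⟨u.1, hmem i u hu, v.1, hmem j v hv, huv⟩
  · intro B hB
    obtain ⟨i, -, rfl⟩ := mem_image.1 hB
    intro v hv
    simp only [g, mem_filter, mem_univ, true_and] at hv
    obtain ⟨w, -, rfl⟩ := hv
    exact w.2
  · rw [card_image_of_injective _ hinj, card_univ, Fintype.card_fin]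

end Pool.Agent.HM
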