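import Mathlib
import Pool.Agent.HM.Mod
import Pool.Agent.HM.Gal

/-!
# HM: the decomposition of a minimal counterexample with `2 k + 1` vertices
-/

set_option autoImplicit false

namespace Pool.Agent.HM

open Finset Pool.Agent.CA31
open scoped Classical

/-- minimal counterexamples with `2 k + 1` vertices -/
structure Ctx {V : Type} [Fintype V] (G : SimpleGraph V) (k : ℕ) : Prop where
  nc : k + 1 ≤ th G univ
  min : ∀ S : Finset V, S ≠ univ →
    ∃ F : Finset (Finset V), IsM G F ∧ (∀ B ∈ F, B ⊆ S) ∧ F.card = th G S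
  con : ∀ C : Finset V, Conn G C → 2 ≤ C.card → ∃ φ : V → Fin k,
    (∀ u ∈ C, ∀ v ∈ C, φ u = φ v) ∧ ∀ u v, G.Adj u v → (u ∉ C ∨ v ∉ C) → φ u ≠ φ v
  no : ∀ F : Finset (Finset V), IsM G F → F.card ≤ k
  hn : Fintype.card V = 2 * k + 1

/-- the decomposition -/
structure Dec {V ι : Type} [Fintype V] [Fintype ι] (G : SimpleGraph V) (k : ℕ)
    (D : ι → Finset V) (S : Finset V) : Prop where
  cov : ∀ v, v ∈ S ∨ ∃ i, v ∈ D i
  dS : ∀ i, Disjoint S (D i)
  comp : ∀ i j, i ≠ j → ∀ a ∈ D i, ∀ b ∈ D j, G.Adj a b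
  ne : ∀ i, (D i).Nonempty
  crit : ∀ i, ∀ d ∈ D i, th G ((D i).erase d) + 1 ≤ th G (D i)
  card : ∀ i, (D i).card + 1 = 2 * th G (D i)
  sum : ∑ i, th G (D i) = k
  cS : S.card = Fintype.card ι + 1
  c3 : 3 ≤ S.card
  mat : ∀ s ∈ S, ∃ h : ι → V, Function.Injective h ∧
    ∀ i, h i ∈ S ∧ h i ≠ s ∧ ∃ d ∈ D i, ¬ G.Adj (h i) d
  tch : ∀ v, v ∉ S → ∃ s ∈ S, G.Adj v s

variable {V : Type} {G : SimpleGraph V}

theorem absorb {ι : Type} {D : ι → Finset V}
    (crit : ∀ i, ∀ d ∈ D i, th G ((D i).erase d) + 1 ≤ th G (D i)) (J J' : Finset ι)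
    (hJ : J ⊆ J') (h : ι → V) (hh : ∀ j ∈ J, ∃ d ∈ D j, ¬ G.Adj (h j) d) :
    th G (J.image h ∪ J'.biUnion D) ≤ ∑ j ∈ J', th G (D j) := by
  have hsub : J.image h ∪ J'.biUnion D ⊆
      J'.biUnion (fun j => if j ∈ J then insert (h j) (D j) else D j) := by
    intro x hx
    rcases mem_union.1 hx with hx | hx
    · obtain ⟨j, hj, rfl⟩ := mem_image.1 hx
      refine mem_biUnion.2 ⟨j, hJ hj, ?_⟩
      simp only [hj, if_true]
      exact mem_insert_self _ _
    · obtain ⟨j, hj, hxj⟩ := mem_biUnion.1 hx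
      refine mem_biUnion.2 ⟨j, hj, ?_⟩
      split_ifs with hjJ
      · exact mem_insert_of_mem hxj
      · exact hxj
  refine (th_mono hsub).trans ((th_biUnion_le _ _).trans (Finset.sum_le_sum ?_))
  intro j hj
  split_ifs with hjJ
  · obtain ⟨d, hd, hnd⟩ := hh j hjJ
    have hsub' : insert (h j) (D j) ⊆ {h j, d} ∪ (D j).erase d := by
      intro x hx
      rcases mem_insert.1 hx with rfl | hx
      · exact mem_union_left _ (mem_insert_self _ _)
      · by_cases hxd : x = d
        · exact mem_union_left _ (by rw [hxd]; exact mem_insert_of_mem (mem_singleton_self _))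
        · exact mem_union_right _ (mem_erase.2 ⟨hxd, hx⟩)
    have h1 := (th_mono (G := G) hsub').trans (th_union_le _ _)
    have h2 := th_pair_le hnd
    have h3 := crit j d hd
    omega
  · exact le_rfl

theorem even_of_invol {X : Finset V} (π : V → V) (h1 : ∀ x ∈ X, π x ∈ X) (h2 : ∀ x ∈ X, π x ≠ x)
    (h3 : ∀ x, π (π x) = x) : Even X.card := by
  have h : ∑ x ∈ X, (1 : ZMod 2) = 0 :=
    Finset.sum_involution (fun x _ => π x) (fun x _ => by decide) (fun x hx _ => h2 x hx)
      (fun x hx => h1 x hx) (fun x _ => h3 x)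
  rw [Finset.sum_const, nsmul_eq_mul, mul_one] at h
  exact (ZMod.natCast_eq_zero_iff_even).1 h

section ctx

variable [Fintype V] {k : ℕ}

theorem Ctx.exists_nonadj (h : Ctx G k) {A : Finset V} (hA : A.Nonempty) (hA' : A ≠ univ) :
    ∃ a ∈ A, ∃ b, b ∉ A ∧ ¬ G.Adj a b := by
  by_contra hcon
  push Not at hcon
  have hAc : Aᶜ ≠ univ := by
    intro he
    rw [compl_eq_univ_iff] at he
    exact hA.ne_empty he
  obtain ⟨F, hF1, hF2, hF3⟩ := h.min A hA'
  obtain ⟨F', hF1', hF2', hF3'⟩ := h.min Aᶜ hAc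
  have hu := hF1.union hF1' (by
    intro B hB C hC
    rw [Finset.disjoint_left]
    intro x hx hx'
    exact (mem_compl.1 (hF2' C hC hx')) (hF2 B hB hx)) (by
    intro B hB C hC
    obtain ⟨u, hu⟩ := (hF1.1 B hB).nonempty
    obtain ⟨v, hv⟩ := (hF1'.1 C hC).nonempty
    exact ⟨u, hu, v, hv, hcon u (hF2 B hB hu) v (mem_compl.1 (hF2' C hC hv))⟩)
  have h1 := h.no _ hu.1
  have h2 := h.nc
  have h3 := th_union_le (G := G) A Aᶜ
  rw [union_compl] at h3
  omega

theorem Ctx.crit (h : Ctx G k) (v : V) : th G (univ.erase v) ≤ k := by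
  have hne : (univ : Finset V).erase v ≠ univ := by
    intro he
    have hm := mem_univ v
    rw [← he] at hm
    exact notMem_erase v univ hm
  obtain ⟨F, hF1, -, hF3⟩ := h.min _ hne
  rw [← hF3]
  exact h.no _ hF1

theorem Ctx.preconn (h : Ctx G k) : Gᶜ.Preconnected := by
  intro u v
  by_contra hcon
  let A : Finset V := univ.filter (fun w => Gᶜ.Reachable u w)
  have huA : u ∈ A := by
    simp only [A, mem_filter, mem_univ, true_and]
    exact SimpleGraph.Reachable.refl u
  have hvA : v ∉ A := by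
    simp only [A, mem_filter, mem_univ, true_and]
    exact hcon
  obtain ⟨a, ha, b, hb, hab⟩ := h.exists_nonadj ⟨u, huA⟩ (fun he => hvA (he ▸ mem_univ v))
  apply hb
  simp only [A, mem_filter, mem_univ, true_and] at ha ⊢
  refine ha.trans (SimpleGraph.Adj.reachable ?_)
  rw [SimpleGraph.compl_adj]
  refine ⟨?_, hab⟩
  rintro rfl
  exact hb (by simp only [A, mem_filter, mem_univ, true_and]; exact ha)

theorem Ctx.matching (h : Ctx G k) (v : V) :
    ∃ π : V → V, π v = v ∧ (∀ w, π (π w) = w) ∧ (∀ w, w ≠ v → π w ≠ w) ∧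
      ∀ w, ¬ G.Adj w (π w) := by
  refine gallai_all (k := k) ?_ ?_ h.preconn h.hn v
  · intro hc
    have h1 := (colOn_univ_iff G k).2 hc
    have h2 := th_le_iff.2 h1
    have := h.nc
    omega
  · intro w
    obtain ⟨φ, h1, h2⟩ := th_le_iff.1 (h.crit w)
    refine ⟨SimpleGraph.Coloring.mk (fun x => (⟨φ x.1, h1 _ (mem_erase.2 ⟨x.2, mem_univ _⟩)⟩ : Fin k)) ?_⟩
    intro x y hxy he
    exact h2 _ (mem_erase.2 ⟨x.2, mem_univ _⟩) _ (mem_erase.2 ⟨y.2, mem_univ _⟩) hxy
      (congrArg Fin.val he)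

/-- the decomposition: either there are at least two components, or the complement of `D0` has two
vertices and `D0` is connected in the complementary graph -/
theorem Ctx.exists_dec' (h : Ctx G k) (hkpos : 1 ≤ k) {T D0 : Finset V}
    (hTne : T.Nonempty) (hTt : ∀ v, v ∉ T → ∃ s ∈ T, G.Adj v s) (hD0T : D0 ⊆ Tᶜ)
    (hD0k : k ≤ th G D0) (hD0crit : ∀ d ∈ D0, th G (D0.erase d) + 1 ≤ k) :
    (∃ (ι : Type) (_ : Fintype ι) (D : ι → Finset V) (S : Finset V), Dec G k D S) ∨
      (D0ᶜ.card = 2 ∧ (Gᶜ.induce (D0 : Set V)).Preconnected) := by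
  have hD0ne : D0.Nonempty := by
    by_contra hcon
    rw [not_nonempty_iff_eq_empty] at hcon
    rw [hcon, th_empty] at hD0k
    omega
  have hD0eq : th G D0 = k := by
    obtain ⟨d, hd⟩ := hD0ne
    have h1 := th_erase_ge (G := G) D0 d
    have h2 := hD0crit d hd
    omega
  -- components
  let H : SimpleGraph (D0 : Set V) := (Gᶜ).induce (D0 : Set V)
  let ι := H.ConnectedComponent
  have fι : Fintype ι := Fintype.ofFinite _
  let D : ι → Finset V := fun i => univ.filter (fun v => ∃ hv : v ∈ D0, H.connectedComponentMk ⟨v, hv⟩ = i)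
  have hmemD : ∀ i v, v ∈ D i ↔ ∃ hv : v ∈ D0, H.connectedComponentMk ⟨v, hv⟩ = i := by
    intro i v
    simp only [D, mem_filter, mem_univ, true_and]
  have hDsub : ∀ i, D i ⊆ D0 := fun i v hv => ((hmemD i v).1 hv).1
  have hcov0 : ∀ v ∈ D0, ∃ i, v ∈ D i := fun v hv => ⟨_, (hmemD _ v).2 ⟨hv, rfl⟩⟩
  have hcomp : ∀ i j, i ≠ j → ∀ x ∈ D i, ∀ y ∈ D j, G.Adj x y := by
    intro i j hij x hx y hy
    obtain ⟨hx0, hxi⟩ := (hmemD i x).1 hx
    obtain ⟨hy0, hyj⟩ := (hmemD j y).1 hy
    by_contra hcon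
    have hne : x ≠ y := by
      rintro rfl
      exact hij (hxi.symm.trans hyj)
    have hadj : H.Adj ⟨x, hx0⟩ ⟨y, hy0⟩ := by
      show Gᶜ.Adj x y
      rw [SimpleGraph.compl_adj]
      exact ⟨hne, hcon⟩
    apply hij
    rw [← hxi, ← hyj]
    exact SimpleGraph.ConnectedComponent.eq.2 hadj.reachable
  have hne : ∀ i, (D i).Nonempty := by
    intro i
    obtain ⟨⟨v, hv⟩, rfl⟩ := i.exists_rep
    exact ⟨v, (hmemD _ v).2 ⟨hv, rfl⟩⟩
  have hbi : (univ : Finset ι).biUnion D = D0 := by
    ext v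
    rw [mem_biUnion]
    constructor
    · rintro ⟨i, -, hv⟩
      exact hDsub i hv
    · intro hv
      obtain ⟨i, hi⟩ := hcov0 v hv
      exact ⟨i, mem_univ _, hi⟩
  have hsum : ∑ i, th G (D i) = k := by
    apply le_antisymm
    · rw [← hD0eq, ← hbi]
      exact th_biUnion_ge _ _ (fun i _ j _ hij => hcomp i j hij)
    · rw [← hD0eq, ← hbi]
      exact th_biUnion_le _ _
  have hcrit : ∀ i, ∀ d ∈ D i, th G ((D i).erase d) + 1 ≤ th G (D i) := by
    intro i d hd
    have h1 : th G ((D i).erase d) + th G ((univ.erase i).biUnion D) ≤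
        th G ((D i).erase d ∪ (univ.erase i).biUnion D) := by
      apply th_join_ge
      intro x hx y hy
      obtain ⟨j, hj, hyj⟩ := mem_biUnion.1 hy
      exact hcomp i j (fun e => (mem_erase.1 hj).1 e.symm) x (mem_of_mem_erase hx) y hyj
    have h2 : ∑ j ∈ univ.erase i, th G (D j) ≤ th G ((univ.erase i).biUnion D) :=
      th_biUnion_ge _ _ (fun i _ j _ hij => hcomp i j hij)
    have h3 : (D i).erase d ∪ (univ.erase i).biUnion D ⊆ D0.erase d := by
      intro x hx
      rcases mem_union.1 hx with hx | hx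
      · exact mem_erase.2 ⟨(mem_erase.1 hx).1, hDsub i (mem_erase.1 hx).2⟩
      · obtain ⟨j, hj, hxj⟩ := mem_biUnion.1 hx
        refine mem_erase.2 ⟨?_, hDsub j hxj⟩
        rintro rfl
        exact G.loopless.irrefl _ (hcomp i j (fun e => (mem_erase.1 hj).1 e.symm) x hd x hxj)
    have h4 := th_mono (G := G) h3
    have h5 := hD0crit d (hDsub i hd)
    have h6 : ∑ j ∈ univ.erase i, th G (D j) + th G (D i) = ∑ j, th G (D j) :=
      Finset.sum_erase_add _ _ (mem_univ i)
    omega
  have hgal : ∀ i, 2 * th G (D i) ≤ (D i).card + 1 := by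
    intro i
    apply gallai_sub (hne i) (hcrit i)
    rintro ⟨x, hx⟩ ⟨y, hy⟩
    have hx' : x ∈ D i := hx
    have hy' : y ∈ D i := hy
    obtain ⟨hx0, hxi⟩ := (hmemD i x).1 hx'
    obtain ⟨hy0, hyi⟩ := (hmemD i y).1 hy'
    have hconn := i.connected_toSimpleGraph
    have hr := hconn.preconnected ⟨⟨x, hx0⟩, hxi⟩ ⟨⟨y, hy0⟩, hyi⟩
    let e : i.toSimpleGraph →g ((G.induce (D i : Set V))ᶜ) :=
      { toFun := fun z => ⟨z.1.1, (hmemD i z.1.1).2 ⟨z.1.2, z.2⟩⟩
        map_rel' := fun {u v} huv => by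
          have h1 : Gᶜ.Adj u.1.1 v.1.1 := huv
          rw [SimpleGraph.compl_adj] at h1 ⊢
          refine ⟨fun he => ?_, h1.2⟩
          have h2 := congrArg Subtype.val he
          exact h1.1 h2 }
    exact hr.map e
  have hdisj : ∀ i j, i ≠ j → Disjoint (D i) (D j) := by
    intro i j hij
    rw [Finset.disjoint_left]
    intro x hx hx'
    exact G.loopless.irrefl _ (hcomp i j hij x hx x hx')
  set S : Finset V := D0ᶜ with hS
  have hTS : T ⊆ S := by
    intro x hx
    rw [hS, mem_compl]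
    exact fun h' => (mem_compl.1 (hD0T h')) hx
  have hcardV : S.card + ∑ i, (D i).card = 2 * k + 1 := by
    have h1 : D0.card = ∑ i, (D i).card := by
      rw [← hbi]
      exact card_biUnion (fun i _ j _ hij => hdisj i j hij)
    rw [← h1, hS, card_compl, h.hn]
    have h2 : D0.card ≤ Fintype.card V := by
      rw [← card_univ]
      exact card_le_card (subset_univ _)
    rw [h.hn] at h2
    omega
  -- odd components are matched to `S`
  let O : Finset ι := univ.filter (fun i => Odd (D i).card)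
  have hmat : ∀ s ∈ S, ∃ g : ι → V, (∀ i ∈ O, g i ∈ S ∧ g i ≠ s ∧ ∃ d ∈ D i, ¬ G.Adj (g i) d) ∧
      ∀ i ∈ O, ∀ j ∈ O, g i = g j → i = j := by
    intro s hs
    obtain ⟨π, hπs, hππ, hπne, hπadj⟩ := h.matching s
    have hex : ∀ i ∈ O, ∃ d ∈ D i, π d ∈ S := by
      intro i hi
      by_contra hcon
      push Not at hcon
      have hodd : Odd (D i).card := by
        simp only [O, mem_filter, mem_univ, true_and] at hi
        exact hi
      rw [← Nat.not_even_iff_odd] at hodd
      apply hodd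
      apply even_of_invol π _ _ hππ
      · intro x hx
        have h1 := hcon x hx
        rw [hS, mem_compl, not_not] at h1
        obtain ⟨j, hj⟩ := hcov0 _ h1
        by_cases hij : i = j
        · rw [hij]; exact hj
        · exact absurd (hcomp i j hij x hx _ hj) (hπadj x)
      · intro x hx
        apply hπne
        rintro rfl
        exact (mem_compl.1 hs) (hDsub i hx)
    have : Nonempty V := ⟨s⟩
    choose! d hd1 hd2 using hex
    refine ⟨fun i => π (d i), ?_, ?_⟩
    · intro i hi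
      refine ⟨hd2 i hi, ?_, d i, hd1 i hi, fun e => hπadj _ e.symm⟩
      intro he
      have h1 : d i = s := by
        have := congrArg π he
        rw [hππ, hπs] at this
        exact this
      exact (mem_compl.1 hs) (hDsub i (h1 ▸ hd1 i hi))
    · intro i hi j hj he
      have h1 : d i = d j := by
        have := congrArg π he
        rwa [hππ, hππ] at this
      by_contra hij
      exact Finset.disjoint_left.1 (hdisj i j hij) (hd1 i hi) (h1 ▸ hd1 j hj)
  have hSne : S.Nonempty := hTne.mono hTS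
  have hOle : O.card + 1 ≤ S.card := by
    obtain ⟨s, hs⟩ := hSne
    obtain ⟨g, hg1, hg2⟩ := hmat s hs
    have h1 : O.image g ⊆ S.erase s := by
      intro x hx
      obtain ⟨i, hi, rfl⟩ := mem_image.1 hx
      exact mem_erase.2 ⟨(hg1 i hi).2.1, (hg1 i hi).1⟩
    have h2 := card_le_card h1
    rw [card_image_of_injOn (fun i hi j hj hij => hg2 i hi j hj hij), card_erase_of_mem hs] at h2
    have := card_pos.2 ⟨s, hs⟩
    omega
  have hlow : ∀ i, 2 * th G (D i) ≤ (D i).card + (if i ∈ O then 1 else 0) := by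
    intro i
    have h1 := hgal i
    split_ifs with hi
    · exact h1
    · have h2 : Even (D i).card := by
        rw [← Nat.not_odd_iff_even]
        intro h3
        exact hi (by simp only [O, mem_filter, mem_univ, true_and]; exact h3)
      obtain ⟨r, hr⟩ := h2
      omega
  have hsumO : ∑ i : ι, (if i ∈ O then 1 else 0) = O.card := by
    rw [Finset.sum_ite_mem, univ_inter, sum_const, smul_eq_mul, mul_one]
  have h2k : 2 * k = ∑ i, 2 * th G (D i) := by
    rw [← hsum, mul_sum]
  have hSO : S.card = O.card + 1 := by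
    have h1 := Finset.sum_le_sum (fun i (_ : i ∈ (univ : Finset ι)) => hlow i)
    rw [sum_add_distrib, hsumO, ← h2k] at h1
    omega
  have heq : ∀ i, 2 * th G (D i) = (D i).card + (if i ∈ O then 1 else 0) := by
    have h1 : ∑ i, 2 * th G (D i) = ∑ i, ((D i).card + (if i ∈ O then 1 else 0)) := by
      rw [sum_add_distrib, hsumO, ← h2k]
      omega
    have h2 := (Finset.sum_eq_sum_iff_of_le (fun i (_ : i ∈ (univ : Finset ι)) => hlow i)).1 h1
    exact fun i => h2 i (mem_univ i)
  -- no even component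
  have hall : ∀ i, i ∈ O := by
    intro i
    by_contra hi
    obtain ⟨e, he, w, hw, hew⟩ := h.exists_nonadj (hne i) (by
      intro he
      obtain ⟨s, hs⟩ := hSne
      exact (mem_compl.1 hs) (hDsub i (he ▸ mem_univ s)))
    have hwS : w ∈ S := by
      rw [hS, mem_compl]
      intro hw0
      obtain ⟨j, hj⟩ := hcov0 w hw0
      by_cases hij : i = j
      · exact hw (hij ▸ hj)
      · exact hew (hcomp i j hij e he w hj)
    obtain ⟨g, hg1, hg2⟩ := hmat w hwS
    have himg : O.image g = S.erase w := by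
      apply eq_of_subset_of_card_le
      · intro x hx
        obtain ⟨j, hj, rfl⟩ := mem_image.1 hx
        exact mem_erase.2 ⟨(hg1 j hj).2.1, (hg1 j hj).1⟩
      · rw [card_image_of_injOn (fun i hi j hj hij => hg2 i hi j hj hij), card_erase_of_mem hwS]
        omega
    have hOJ : O ⊆ univ.erase i := by
      intro j hj
      refine mem_erase.2 ⟨?_, mem_univ _⟩
      rintro rfl
      exact hi hj
    have h1 := absorb hcrit O (univ.erase i) hOJ g (fun j hj => (hg1 j hj).2.2)
    have hsub : (univ : Finset V) ⊆ ({e, w} ∪ (D i).erase e) ∪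
        (O.image g ∪ (univ.erase i).biUnion D) := by
      intro x _
      by_cases hx0 : x ∈ D0
      · obtain ⟨j, hj⟩ := hcov0 x hx0
        by_cases hij : i = j
        · subst hij
          by_cases hxe : x = e
          · exact mem_union_left _ (mem_union_left _ (by rw [hxe]; exact mem_insert_self _ _))
          · exact mem_union_left _ (mem_union_right _ (mem_erase.2 ⟨hxe, hj⟩))
        · exact mem_union_right _ (mem_union_right _ (mem_biUnion.2
            ⟨j, mem_erase.2 ⟨fun e' => hij e'.symm, mem_univ _⟩, hj⟩))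
      · have hxS : x ∈ S := by rw [hS, mem_compl]; exact hx0
        by_cases hxw : x = w
        · exact mem_union_left _ (mem_union_left _ (by
            rw [hxw]; exact mem_insert_of_mem (mem_singleton_self _)))
        · refine mem_union_right _ (mem_union_left _ ?_)
          rw [himg]
          exact mem_erase.2 ⟨hxw, hxS⟩
    have h2 := (th_mono (G := G) hsub).trans (th_union_le _ _)
    have h3 := th_union_le (G := G) {e, w} ((D i).erase e)
    have h4 := th_pair_le hew
    have h5 := hcrit i e he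
    have h6 : ∑ j ∈ univ.erase i, th G (D j) + th G (D i) = ∑ j, th G (D j) :=
      Finset.sum_erase_add _ _ (mem_univ i)
    have h7 := h.nc
    omega
  have hOu : O = univ := by
    ext i
    simp only [hall i, mem_univ]
  have hSι : S.card = Fintype.card ι + 1 := by rw [hSO, hOu, card_univ]
  by_cases hm : 2 ≤ Fintype.card ι
  swap
  · right
    have hι1 : Fintype.card ι = 1 := by
      obtain ⟨x, hx⟩ := hD0ne
      obtain ⟨i, -⟩ := hcov0 x hx
      have : 0 < Fintype.card ι := Fintype.card_pos_iff.2 ⟨i⟩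
      omega
    refine ⟨by omega, ?_⟩
    obtain ⟨i0, hi0⟩ := Fintype.card_eq_one_iff.1 hι1
    intro u v
    have e1 : H.connectedComponentMk u = i0 := hi0 _
    have e2 : H.connectedComponentMk v = i0 := hi0 _
    exact SimpleGraph.ConnectedComponent.eq.1 (e1.trans e2.symm)
  left
  refine ⟨ι, fι, D, S, ?_, ?_, hcomp, hne, hcrit, ?_, hsum, hSι, ?_, ?_, ?_⟩
  · intro v
    by_cases hv : v ∈ D0
    · exact Or.inr (hcov0 v hv)
    · exact Or.inl (by rw [hS, mem_compl]; exact hv)
  · intro i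
    rw [Finset.disjoint_left]
    intro x hx hx'
    exact (mem_compl.1 hx) (hDsub i hx')
  · intro i
    have := heq i
    simp only [hall i, if_true] at this
    exact this.symm
  · omega
  · intro s hs
    obtain ⟨g, hg1, hg2⟩ := hmat s hs
    exact ⟨g, fun i j hij => hg2 i (hall i) j (hall j) hij, fun i => hg1 i (hall i)⟩
  · intro v hv
    obtain ⟨s, hs, hvs⟩ := hTt v (fun h' => hv (hTS h'))
    exact ⟨s, hTS hs, hvs⟩

/-- a minimal subset of chromatic number `k` outside a stable set -/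
theorem Ctx.exists_D0 (h : Ctx G k) {T : Finset V} (hTst : ∀ u ∈ T, ∀ v ∈ T, ¬ G.Adj u v) :
    ∃ D0 : Finset V, D0 ⊆ Tᶜ ∧ k ≤ th G D0 ∧ ∀ d ∈ D0, th G (D0.erase d) + 1 ≤ k := by
  have hTc : k ≤ th G Tᶜ := by
    have h1 := th_union_le (G := G) T Tᶜ
    rw [union_compl] at h1
    have h2 := th_le_one hTst
    have h3 := h.nc
    omega
  obtain ⟨D0, hD0, hD0min⟩ := Finset.exists_min_image
    ((univ : Finset (Finset V)).filter (fun X => X ⊆ Tᶜ ∧ k ≤ th G X)) Finset.card ⟨Tᶜ, by
      simp only [mem_filter, mem_univ, true_and]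
      exact ⟨Finset.Subset.refl _, hTc⟩⟩
  simp only [mem_filter, mem_univ, true_and] at hD0 hD0min
  refine ⟨D0, hD0.1, hD0.2, ?_⟩
  intro d hd
  by_contra hcon
  have h1 := hD0min (D0.erase d) ⟨(erase_subset _ _).trans hD0.1, by omega⟩
  have := Finset.card_erase_lt_of_mem hd
  omega

end ctx

end Pool.Agent.HM
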