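import Mathlib
import Pool.Agent.HM.Dec

/-!
# HM: section (6) of Theorem M, the construction of the complete minor
-/

set_option autoImplicit false

namespace Pool.Agent.HM

open Finset Pool.Agent.CA31
open scoped Classical

variable {V : Type} {G : SimpleGraph V}

/-- (6a) many vertices with few colours -/
theorem exists_trim {r : ℕ} : ∀ (t : ℕ) (Y : Finset V), th G Y ≤ t → 2 * t ≤ Y.card → r ≤ t →
    ∃ X ⊆ Y, X.card = 2 * r ∧ th G X ≤ r := by
  intro t
  induction t with
  | zero =>
    intro Y h1 _ h3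
    have hr : r = 0 := by omega
    subst hr
    exact ⟨∅, empty_subset _, by simp, by rw [th_empty]⟩
  | succ t ih =>
    intro Y h1 h2 h3
    rcases Nat.lt_or_ge t r with hr | hr
    · have hr' : r = t + 1 := by omega
      subst hr'
      obtain ⟨X, hX, hXc⟩ := exists_subset_card_eq h2
      exact ⟨X, hX, hXc, (th_mono hX).trans h1⟩
    · obtain ⟨Z, hZ, hZc⟩ := exists_subset_card_eq h2
      obtain ⟨φ, hφ1, hφ2⟩ := th_le_iff.1 ((th_mono (G := G) hZ).trans h1)
      have hex : ∃ a ∈ range (t + 1), (Z.filter (fun v => φ v = a)).card ≤ 2 := by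
        by_contra hcon
        push Not at hcon
        have e1 : Z.card = ∑ a ∈ range (t + 1), (Z.filter (fun v => φ v = a)).card :=
          card_eq_sum_card_fiberwise (fun v hv => by
            have := hφ1 v (mem_coe.1 hv)
            exact mem_coe.2 (mem_range.2 this))
        have e2 : ∑ a ∈ range (t + 1), 3 ≤ ∑ a ∈ range (t + 1), (Z.filter (fun v => φ v = a)).card :=
          sum_le_sum (fun a ha => hcon a ha)
        rw [← e1, sum_const, card_range, smul_eq_mul] at e2
        omega
      obtain ⟨a, ha, hac⟩ := hex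
      have hsplit : (Z.filter (fun v => φ v = a)).card + (Z.filter (fun v => ¬ φ v = a)).card =
          Z.card := card_filter_add_card_filter_not _
      have hth : th G (Z.filter (fun v => ¬ φ v = a)) ≤ t := by
        have e1 := th_le_image (G := G) (A := Z.filter (fun v => ¬ φ v = a)) φ (by
          intro u hu v hv huv
          exact hφ2 u (mem_filter.1 hu).1 v (mem_filter.1 hv).1 huv)
        have e2 : (Z.filter (fun v => ¬ φ v = a)).image φ ⊆ (range (t + 1)).erase a := by
          intro c hc
          obtain ⟨v, hv, rfl⟩ := mem_image.1 hc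
          obtain ⟨hv1, hv2⟩ := mem_filter.1 hv
          exact mem_erase.2 ⟨hv2, mem_range.2 (hφ1 v hv1)⟩
        have e3 := card_le_card e2
        rw [card_erase_of_mem ha, card_range] at e3
        omega
      obtain ⟨X, hX, hXc, hXt⟩ := ih _ hth (by omega) hr
      exact ⟨X, hX.trans ((filter_subset _ _).trans hZ), hXc, hXt⟩

/-- (6c) the pairs -/
theorem exists_pairs {E X : Finset V} (hc : E.card = X.card)
    (hj : ∀ a ∈ E, ∀ b ∈ X, G.Adj a b) : ∃ P : Finset (Finset V), IsM G P ∧ P.card = E.card ∧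
      ∀ B ∈ P, B ⊆ E ∪ X ∧ (∃ x ∈ B, x ∈ E) ∧ ∃ y ∈ B, y ∈ X := by
  have hdis : Disjoint E X := by
    rw [Finset.disjoint_left]
    intro x hx hx'
    exact G.loopless.irrefl _ (hj x hx x hx')
  let e : E ≃ X := Finset.equivOfCardEq hc
  let g : E → Finset V := fun x => {x.1, (e x).1}
  have hg1 : ∀ x : E, x.1 ∈ g x := fun x => mem_insert_self _ _
  have hg2 : ∀ x : E, (e x).1 ∈ g x := fun x => mem_insert_of_mem (mem_singleton_self _)
  have hmem : ∀ (x : E) (v : V), v ∈ g x → v = x.1 ∨ v = (e x).1 := by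
    intro x v hv
    simpa [g] using hv
  have hdisj : ∀ x y : E, x ≠ y → Disjoint (g x) (g y) := by
    intro x y hxy
    rw [Finset.disjoint_left]
    intro v hv hv'
    rcases hmem x v hv with h1 | h1 <;> rcases hmem y v hv' with h2 | h2
    · exact hxy (Subtype.ext (h1.symm.trans h2))
    · exact Finset.disjoint_left.1 hdis (h1 ▸ x.2) (h2 ▸ (e y).2)
    · exact Finset.disjoint_left.1 hdis (h2 ▸ y.2) (h1 ▸ (e x).2)
    · exact hxy (e.injective (Subtype.ext (h1.symm.trans h2)))
  have hinj : Function.Injective g := by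
    intro x y hxy
    by_contra hne
    exact Finset.disjoint_left.1 (hdisj x y hne) (hg1 x) (hxy ▸ hg1 x)
  refine ⟨univ.image g, ⟨?_, ?_⟩, ?_, ?_⟩
  · intro B hB
    obtain ⟨x, -, rfl⟩ := mem_image.1 hB
    exact conn_pair (hj _ x.2 _ (e x).2)
  · intro B hB C hC hBC
    obtain ⟨x, -, rfl⟩ := mem_image.1 hB
    obtain ⟨y, -, rfl⟩ := mem_image.1 hC
    have hxy : x ≠ y := fun e => hBC (by rw [e])
    exact ⟨hdisj x y hxy, x.1, hg1 x, (e y).1, hg2 y, hj _ x.2 _ (e y).2⟩
  · rw [card_image_of_injective _ hinj, card_univ, Fintype.card_coe]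
  · intro B hB
    obtain ⟨x, -, rfl⟩ := mem_image.1 hB
    refine ⟨?_, ⟨x.1, hg1 x, x.2⟩, ⟨(e x).1, hg2 x, (e x).2⟩⟩
    intro v hv
    rcases hmem x v hv with h1 | h1
    · exact mem_union_left _ (h1 ▸ x.2)
    · exact mem_union_right _ (h1 ▸ (e x).2)

/-- three pairwise adjacent bags -/
theorem isM_three {A B C : Finset V} (hA : Conn G A) (hB : Conn G B) (hC : Conn G C)
    (dAB : Disjoint A B) (dAC : Disjoint A C) (dBC : Disjoint B C)
    (tAB : Touch G A B) (tAC : Touch G A C) (tBC : Touch G B C) :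
    IsM G {A, B, C} ∧ ({A, B, C} : Finset (Finset V)).card = 3 := by
  have h1 := (isM_single hC).insert hB (by
    intro X hX
    rw [mem_singleton] at hX
    rw [hX]; exact dBC) (by
    intro X hX
    rw [mem_singleton] at hX
    rw [hX]; exact tBC)
  have h2 := h1.1.insert hA (by
    intro X hX
    rcases mem_insert.1 hX with hX | hX
    · rw [hX]; exact dAB
    · rw [mem_singleton] at hX
      rw [hX]; exact dAC) (by
    intro X hX
    rcases mem_insert.1 hX with hX | hX
    · rw [hX]; exact tAB
    · rw [mem_singleton] at hX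
      rw [hX]; exact tAC)
  refine ⟨h2.1, ?_⟩
  rw [h2.2, h1.2, card_singleton]

/-- the vertices of a critical set have many neighbours -/
theorem deg_ge {E : Finset V} (hcrit : ∀ d ∈ E, th G (E.erase d) + 1 ≤ th G E) {v : V}
    (hv : v ∈ E) : th G E ≤ (E.filter (fun w => G.Adj v w)).card + 1 := by
  by_contra hcon
  push Not at hcon
  obtain ⟨φ, h1, h2⟩ := th_le_iff.1 (show th G (E.erase v) ≤ th G E - 1 by
    have := hcrit v hv
    omega)
  have hex : ∃ a ∈ range (th G E - 1), a ∉ (E.filter (fun w => G.Adj v w)).image φ := by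
    by_contra hcon'
    push Not at hcon'
    have e1 := card_le_card (show range (th G E - 1) ⊆ _ from hcon')
    rw [card_range] at e1
    have e2 := card_image_le (s := E.filter (fun w => G.Adj v w)) (f := φ)
    omega
  obtain ⟨a, ha, ha'⟩ := hex
  have hle : th G E ≤ th G E - 1 := by
    rw [th_le_iff]
    refine ⟨fun w => if w = v then a else φ w, ?_, ?_⟩
    · intro w hw
      by_cases hwv : w = v
      · simp only [hwv, if_true]
        exact mem_range.1 ha
      · simp only [hwv, if_false]
        exact h1 w (mem_erase.2 ⟨hwv, hw⟩)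
    · intro x hx y hy hxy
      by_cases hxv : x = v
      · by_cases hyv : y = v
        · exact absurd (hxv.trans hyv.symm) hxy.ne
        · simp only [hxv, hyv, if_true, if_false]
          intro he
          apply ha'
          rw [he]
          exact mem_image_of_mem _ (mem_filter.2 ⟨hy, hxv ▸ hxy⟩)
      · by_cases hyv : y = v
        · simp only [hxv, hyv, if_true, if_false]
          intro he
          apply ha'
          rw [← he]
          exact mem_image_of_mem _ (mem_filter.2 ⟨hx, hyv ▸ hxy.symm⟩)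
        · simp only [hxv, hyv, if_false]
          exact h2 x (mem_erase.2 ⟨hxv, hx⟩) y (mem_erase.2 ⟨hyv, hy⟩) hxy
  omega

/-- the structure of the neighbourhoods when there is no triangle -/
theorem no_triangle {E : Finset V} (h3 : 3 ≤ th G E) (hcard : E.card + 1 = 2 * th G E)
    (hcrit : ∀ d ∈ E, th G (E.erase d) + 1 ≤ th G E)
    (htri : ∀ x ∈ E, ∀ y ∈ E, ∀ z ∈ E, G.Adj x y → G.Adj x z → ¬ G.Adj y z) {v : V} (hv : v ∈ E) :
    th G E = 3 ∧ (E.filter (fun w => G.Adj v w)).card = 2 := by
  set A := E.filter (fun w => G.Adj v w) with hA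
  have hAE : A ⊆ E := filter_subset _ _
  have hAst : ∀ x ∈ A, ∀ y ∈ A, ¬ G.Adj x y := by
    intro x hx y hy
    obtain ⟨hx1, hx2⟩ := mem_filter.1 hx
    obtain ⟨hy1, hy2⟩ := mem_filter.1 hy
    exact htri v hv x hx1 y hy1 hx2 hy2
  have hvA : v ∉ A := fun h => G.loopless.irrefl _ (mem_filter.1 h).2
  set R := (E \ A).erase v with hR
  have hvEA : v ∈ E \ A := mem_sdiff.2 ⟨hv, hvA⟩
  have hRc : R.card + 1 + A.card = E.card := by
    have h1 := card_sdiff_add_card_eq_card hAE
    have h2 := card_erase_of_mem hvEA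
    have h4 := card_pos.2 ⟨v, hvEA⟩
    rw [← hR] at h2
    omega
  have hdeg := deg_ge hcrit hv
  rw [← hA] at hdeg
  have hRv : th G (E \ A) ≤ max (th G R) 1 := by
    obtain ⟨φ, h1, h2⟩ := th_le_iff.1 (le_max_left (th G R) 1)
    rw [th_le_iff]
    refine ⟨fun w => if w = v then 0 else φ w, ?_, ?_⟩
    · intro w hw
      by_cases hwv : w = v
      · simp only [hwv, if_true]
        exact Nat.lt_of_lt_of_le Nat.zero_lt_one (le_max_right _ _)
      · simp only [hwv, if_false]
        exact h1 w (mem_erase.2 ⟨hwv, hw⟩)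
    · intro x hx y hy hxy
      by_cases hxv : x = v
      · exact absurd (mem_filter.2 ⟨(mem_sdiff.1 hy).1, hxv ▸ hxy⟩) (mem_sdiff.1 hy).2
      · by_cases hyv : y = v
        · exact absurd (mem_filter.2 ⟨(mem_sdiff.1 hx).1, hyv ▸ hxy.symm⟩) (mem_sdiff.1 hx).2
        · simp only [hxv, hyv, if_false]
          exact h2 x (mem_erase.2 ⟨hxv, hx⟩) y (mem_erase.2 ⟨hyv, hy⟩) hxy
  have hE : th G E ≤ th G A + th G (E \ A) := by
    have := th_union_le (G := G) A (E \ A)
    rwa [union_sdiff_of_subset hAE] at this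
  have hA1 := th_le_one hAst
  have hR1 := th_le_card (G := G) R
  have hRth : th G E ≤ th G R + 1 := by
    rcases le_total (th G R) 1 with h | h
    · rw [max_eq_right h] at hRv
      omega
    · rw [max_eq_left h] at hRv
      omega
  have hRcl : ∀ x ∈ R, ∀ y ∈ R, x ≠ y → G.Adj x y := by
    intro x hx y hy hxy
    by_contra hn
    have := th_succ_le_card hx hy hxy hn
    omega
  have hRE : R ⊆ E := (erase_subset _ _).trans sdiff_subset
  have hR2 : R.card ≤ 2 := by
    by_contra hcon
    push Not at hcon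
    obtain ⟨x, hx, y, hy, z, hz, hxy, hxz, hyz⟩ := (two_lt_card).1 hcon
    exact htri x (hRE hx) y (hRE hy) z (hRE hz) (hRcl x hx y hy hxy) (hRcl x hx z hz hxz)
      (hRcl y hy z hz hyz)
  constructor <;> omega

/-- (6b) three pairwise adjacent bags with one vertex of `E` each -/
theorem exists_three {E : Finset V} (h3 : 3 ≤ th G E) (hcard : E.card + 1 = 2 * th G E)
    (hcrit : ∀ d ∈ E, th G (E.erase d) + 1 ≤ th G E) {s t : V} (hs : s ∉ E) (ht : t ∉ E)
    (hst : ∀ x ∈ E, G.Adj s x ∨ G.Adj t x) :
    ∃ T : Finset (Finset V), IsM G T ∧ T.card = 3 ∧ (∀ B ∈ T, B ⊆ E ∪ {s, t} ∧ ∃ x ∈ B, x ∈ E) ∧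
      ∃ E' ⊆ E, E'.card + 4 = 2 * th G E ∧ ∀ B ∈ T, Disjoint B E' := by
  by_cases htri : ∀ x ∈ E, ∀ y ∈ E, ∀ z ∈ E, G.Adj x y → G.Adj x z → ¬ G.Adj y z
  · -- the five-cycle
    have hno := fun v hv => no_triangle h3 hcard hcrit htri (v := v) hv
    have hEne : E.Nonempty := by
      rw [← card_pos]
      omega
    have hth : th G E = 3 := by
      obtain ⟨v, hv⟩ := hEne
      exact (hno v hv).1
    -- one of `s`, `t` has at most two nonneighbours
    have hu : ∃ u, (u = s ∨ u = t) ∧ (E.filter (fun x => ¬ G.Adj u x)).card ≤ 2 := by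
      by_contra hcon
      push Not at hcon
      have h1 := hcon s (Or.inl rfl)
      have h2 := hcon t (Or.inr rfl)
      have h4 : Disjoint (E.filter (fun x => ¬ G.Adj s x)) (E.filter (fun x => ¬ G.Adj t x)) := by
        rw [Finset.disjoint_left]
        intro x hx hx'
        obtain ⟨hx1, hx2⟩ := mem_filter.1 hx
        rcases hst x hx1 with h | h
        · exact hx2 h
        · exact (mem_filter.1 hx').2 h
      have h5 := card_union_of_disjoint h4
      have h6 : (E.filter (fun x => ¬ G.Adj s x)) ∪ (E.filter (fun x => ¬ G.Adj t x)) ⊆ E :=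
        union_subset (filter_subset _ _) (filter_subset _ _)
      have h7 := card_le_card h6
      omega
    obtain ⟨u, hus, huc⟩ := hu
    have huE : u ∉ E := by
      rcases hus with rfl | rfl
      · exact hs
      · exact ht
    -- some `v` has both neighbours adjacent to `u`
    have hv : ∃ v ∈ E, ∀ w ∈ E, G.Adj v w → G.Adj u w := by
      by_contra hcon
      push Not at hcon
      have h1 : E ⊆ (E.filter (fun x => ¬ G.Adj u x)).biUnion
          (fun b => E.filter (fun w => G.Adj b w)) := by
        intro v hv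
        obtain ⟨w, hw, hvw, huw⟩ := hcon v hv
        exact mem_biUnion.2 ⟨w, mem_filter.2 ⟨hw, huw⟩, mem_filter.2 ⟨hv, hvw.symm⟩⟩
      have h2 := card_le_card h1
      have h4 := card_biUnion_le_card_mul (E.filter (fun x => ¬ G.Adj u x))
        (fun b => E.filter (fun w => G.Adj b w)) 2 (by
          intro b hb
          exact (hno b (mem_filter.1 hb).1).2.le)
      have h5 : (E.filter (fun x => ¬ G.Adj u x)).card * 2 ≤ 2 * 2 := Nat.mul_le_mul_right 2 huc
      omega
    obtain ⟨v, hvE, hv⟩ := hv
    obtain ⟨a, b, hab, he⟩ := card_eq_two.1 (hno v hvE).2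
    have ha : a ∈ E.filter (fun w => G.Adj v w) := by
      rw [he]; exact mem_insert_self _ _
    have hb : b ∈ E.filter (fun w => G.Adj v w) := by
      rw [he]; exact mem_insert_of_mem (mem_singleton_self _)
    obtain ⟨haE, hva⟩ := mem_filter.1 ha
    obtain ⟨hbE, hvb⟩ := mem_filter.1 hb
    have hua := hv a haE hva
    have hub := hv b hbE hvb
    have huv : u ≠ v := fun e => huE (e ▸ hvE)
    have hubn : u ≠ b := fun e => huE (e ▸ hbE)
    have huan : u ≠ a := fun e => huE (e ▸ haE)
    obtain ⟨hT1, hT2⟩ := isM_three (G := G) (A := {v}) (B := {a, u}) (C := {b}) (conn_single v)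
      (conn_pair hua.symm) (conn_single b)
      (by simp [hva.ne, huv.symm]) (by simp [hvb.ne]) (by simp [hab.symm, hubn.symm])
      ⟨v, mem_singleton_self _, a, mem_insert_self _ _, hva⟩
      ⟨v, mem_singleton_self _, b, mem_singleton_self _, hvb⟩
      ⟨u, mem_insert_of_mem (mem_singleton_self _), b, mem_singleton_self _, hub⟩
    have hust : u ∈ E ∪ {s, t} := by
      refine mem_union_right _ ?_
      rw [mem_insert, mem_singleton]
      exact hus
    refine ⟨_, hT1, hT2, ?_, E \ {v, a, b}, sdiff_subset, ?_, ?_⟩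
    · intro B hB
      rw [mem_insert, mem_insert, mem_singleton] at hB
      rcases hB with rfl | rfl | rfl
      · exact ⟨singleton_subset_iff.2 (mem_union_left _ hvE), v, mem_singleton_self _, hvE⟩
      · refine ⟨insert_subset_iff.2 ⟨mem_union_left _ haE, singleton_subset_iff.2 hust⟩, a,
          mem_insert_self _ _, haE⟩
      · exact ⟨singleton_subset_iff.2 (mem_union_left _ hbE), b, mem_singleton_self _, hbE⟩
    · have h1 : ({v, a, b} : Finset V).card = 3 := card_eq_three.2 ⟨v, a, b, hva.ne, hvb.ne, hab, rfl⟩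
      have h2 : ({v, a, b} : Finset V) ⊆ E := by
        intro x hx
        rw [mem_insert, mem_insert, mem_singleton] at hx
        rcases hx with rfl | rfl | rfl
        · exact hvE
        · exact haE
        · exact hbE
      have h4 := card_sdiff_add_card_eq_card h2
      omega
    · intro B hB
      rw [Finset.disjoint_right]
      intro x hx hxB
      obtain ⟨hx1, hx2⟩ := mem_sdiff.1 hx
      simp only [mem_insert, mem_singleton, not_or] at hx2
      rw [mem_insert, mem_insert, mem_singleton] at hB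
      rcases hB with rfl | rfl | rfl
      · exact hx2.1 (mem_singleton.1 hxB)
      · rcases mem_insert.1 hxB with h | h
        · exact hx2.2.1 h
        · rw [mem_singleton] at h
          exact huE (h ▸ hx1)
      · exact hx2.2.2 (mem_singleton.1 hxB)
  · -- a triangle
    push Not at htri
    obtain ⟨x, hx, y, hy, z, hz, hxy, hxz, hyz⟩ := htri
    obtain ⟨hT1, hT2⟩ := isM_three (G := G) (A := {x}) (B := {y}) (C := {z}) (conn_single x)
      (conn_single y) (conn_single z) (by simp [hxy.ne]) (by simp [hxz.ne]) (by simp [hyz.ne])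
      ⟨x, mem_singleton_self _, y, mem_singleton_self _, hxy⟩
      ⟨x, mem_singleton_self _, z, mem_singleton_self _, hxz⟩
      ⟨y, mem_singleton_self _, z, mem_singleton_self _, hyz⟩
    refine ⟨_, hT1, hT2, ?_, E \ {x, y, z}, sdiff_subset, ?_, ?_⟩
    · intro B hB
      rw [mem_insert, mem_insert, mem_singleton] at hB
      rcases hB with rfl | rfl | rfl
      · exact ⟨singleton_subset_iff.2 (mem_union_left _ hx), x, mem_singleton_self _, hx⟩
      · exact ⟨singleton_subset_iff.2 (mem_union_left _ hy), y, mem_singleton_self _, hy⟩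
      · exact ⟨singleton_subset_iff.2 (mem_union_left _ hz), z, mem_singleton_self _, hz⟩
    · have h1 : ({x, y, z} : Finset V).card = 3 :=
        card_eq_three.2 ⟨x, y, z, hxy.ne, hxz.ne, hyz.ne, rfl⟩
      have h2 : ({x, y, z} : Finset V) ⊆ E := by
        intro w hw
        rw [mem_insert, mem_insert, mem_singleton] at hw
        rcases hw with rfl | rfl | rfl
        · exact hx
        · exact hy
        · exact hz
      have h4 := card_sdiff_add_card_eq_card h2
      omega
    · intro B hB
      rw [Finset.disjoint_right]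
      intro w hw hwB
      obtain ⟨hw1, hw2⟩ := mem_sdiff.1 hw
      simp only [mem_insert, mem_singleton, not_or] at hw2
      rw [mem_insert, mem_insert, mem_singleton] at hB
      rcases hB with rfl | rfl | rfl
      · exact hw2.1 (mem_singleton.1 hwB)
      · exact hw2.2.1 (mem_singleton.1 hwB)
      · exact hw2.2.2 (mem_singleton.1 hwB)

/-- section (6): two non-singleton components give the minor -/
theorem construct {V ι : Type} [Fintype V] [Fintype ι] {G : SimpleGraph V} {k : ℕ}
    {D : ι → Finset V} {S : Finset V} (h : Ctx G k) (d : Dec G k D S) {i j : ι} (hij : i ≠ j)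
    (hle : th G (D j) ≤ th G (D i)) (h3 : 3 ≤ th G (D j)) {s t : V} (hs : s ∈ S) (ht : t ∈ S)
    (hst : ∀ x ∈ D j, G.Adj s x ∨ G.Adj t x) :
    ∃ F : Finset (Finset V), IsM G F ∧ F.card = k + 1 := by
  exfalso
  have hsj : s ∉ D j := Finset.disjoint_left.1 (d.dS j) hs
  have htj : t ∉ D j := Finset.disjoint_left.1 (d.dS j) ht
  obtain ⟨T, hT, hTc, hTb, E', hE', hE'c, hE'd⟩ := exists_three h3 (d.card j) (d.crit j) hsj htj hst
  -- the set `X`
  obtain ⟨d0, hd0⟩ := d.ne i
  obtain ⟨X, hX, hXc, hXt⟩ := exists_trim (G := G) (r := th G (D j) - 2) (th G (D i) - 1)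
    ((D i).erase d0) (by have := d.crit i d0 hd0; omega)
    (by have := d.card i; rw [card_erase_of_mem hd0]; omega) (by omega)
  have hXD : X ⊆ D i := hX.trans (erase_subset _ _)
  obtain ⟨P, hP, hPc, hPb⟩ := exists_pairs (G := G) (E := E') (X := X) (by omega)
    (fun a ha b hb => d.comp j i hij.symm a (hE' ha) b (hXD hb))
  -- the rest
  set W := (univ.erase j).biUnion D with hW
  have hWj : ∀ w ∈ W, ∀ x ∈ D j, G.Adj x w := by
    intro w hw x hx
    obtain ⟨l, hl, hwl⟩ := mem_biUnion.1 hw
    exact d.comp j l (fun e => (mem_erase.1 hl).1 e.symm) x hx w hwl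
  have hWS : Disjoint S W := by
    rw [Finset.disjoint_left]
    intro x hx hx'
    obtain ⟨l, hl, hxl⟩ := mem_biUnion.1 hx'
    exact Finset.disjoint_left.1 (d.dS l) hx hxl
  have hXW : X ⊆ W := fun x hx => mem_biUnion.2 ⟨i, mem_erase.2 ⟨hij, mem_univ _⟩, hXD hx⟩
  have hWth : k ≤ th G W + th G (D j) := by
    have h1 : ∑ l ∈ univ.erase j, th G (D l) ≤ th G W :=
      th_biUnion_ge (G := G) (univ.erase j) D (fun a _ b _ hab => d.comp a b hab)
    have h2 : ∑ l ∈ univ.erase j, th G (D l) + th G (D j) = ∑ l, th G (D l) :=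
      Finset.sum_erase_add _ _ (mem_univ j)
    have h4 := d.sum
    omega
  have hWX : th G W ≤ th G X + th G (W \ X) := by
    have := th_union_le (G := G) X (W \ X)
    rwa [union_sdiff_of_subset hXW] at this
  have hne : W \ X ≠ univ := by
    intro he
    have := mem_univ s
    rw [← he] at this
    exact Finset.disjoint_left.1 hWS hs (mem_sdiff.1 this).1
  obtain ⟨M, hM, hMb, hMc⟩ := h.min _ hne
  -- disjointness of `D j` and `W`
  have hjW : Disjoint (D j) W := by
    rw [Finset.disjoint_left]
    intro x hx hx'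
    exact G.loopless.irrefl _ (hWj x hx' x hx)
  have hTP := hT.union hP (by
    intro B hB C hC
    rw [Finset.disjoint_left]
    intro x hx hx'
    rcases mem_union.1 ((hPb C hC).1 hx') with h1 | h1
    · exact Finset.disjoint_left.1 (hE'd B hB) hx h1
    · rcases mem_union.1 ((hTb B hB).1 hx) with h2 | h2
      · exact Finset.disjoint_left.1 hjW h2 (hXW h1)
      · rw [mem_insert, mem_singleton] at h2
        rcases h2 with rfl | rfl
        · exact Finset.disjoint_left.1 hWS hs (hXW h1)
        · exact Finset.disjoint_left.1 hWS ht (hXW h1)) (by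
    intro B hB C hC
    obtain ⟨x, hxB, hx⟩ := (hTb B hB).2
    obtain ⟨y, hyC, hy⟩ := (hPb C hC).2.2
    exact ⟨x, hxB, y, hyC, hWj y (hXW hy) x hx⟩)
  have hcore : ∀ B ∈ T ∪ P, ∃ x ∈ B, x ∈ D j := by
    intro B hB
    rcases mem_union.1 hB with hB | hB
    · exact (hTb B hB).2
    · obtain ⟨x, hx, hx'⟩ := (hPb B hB).2.1
      exact ⟨x, hx, hE' hx'⟩
  have hall := hTP.1.union hM (by
    intro B hB C hC
    rw [Finset.disjoint_left]
    intro x hx hx'
    obtain ⟨hxW, hxX⟩ := mem_sdiff.1 (hMb C hC hx')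
    rcases mem_union.1 hB with hB | hB
    · rcases mem_union.1 ((hTb B hB).1 hx) with h2 | h2
      · exact Finset.disjoint_left.1 hjW h2 hxW
      · rw [mem_insert, mem_singleton] at h2
        rcases h2 with rfl | rfl
        · exact Finset.disjoint_left.1 hWS hs hxW
        · exact Finset.disjoint_left.1 hWS ht hxW
    · rcases mem_union.1 ((hPb B hB).1 hx) with h2 | h2
      · exact Finset.disjoint_left.1 hjW (hE' h2) hxW
      · exact hxX h2) (by
    intro B hB C hC
    obtain ⟨x, hxB, hx⟩ := hcore B hB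
    obtain ⟨y, hy⟩ := (hM.1 C hC).nonempty
    exact ⟨x, hxB, y, hy, hWj y (mem_sdiff.1 (hMb C hC hy)).1 x hx⟩)
  have hfin := h.no _ hall.1
  rw [hall.2, hTP.2, hTc, hPc, hMc] at hfin
  omega

end Pool.Agent.HM
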