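import Mathlib
import Pool.Agent.HM.Dec

/-!
# HM: sections (2)-(4) of Theorem M, tight sets
-/

set_option autoImplicit false

namespace Pool.Agent.HM

open Finset Pool.Agent.CA31
open scoped Classical

/-- `s` has a non-neighbour in `D i` -/
def Rel {V ι : Type} (G : SimpleGraph V) (D : ι → Finset V) (s : V) (i : ι) : Prop :=
  ∃ x ∈ D i, ¬ G.Adj s x

/-- the vertices of `S` with a non-neighbour in the components of `I` -/
noncomputable def Nb {V ι : Type} (G : SimpleGraph V) (D : ι → Finset V) (S : Finset V)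
    (I : Finset ι) : Finset V := S.filter (fun s => ∃ i ∈ I, Rel G D s i)

section basic

variable {V ι : Type} {G : SimpleGraph V} {D : ι → Finset V} {S : Finset V}

theorem mem_Nb {I : Finset ι} {s : V} : s ∈ Nb G D S I ↔ s ∈ S ∧ ∃ i ∈ I, Rel G D s i := by
  unfold Nb
  rw [mem_filter]

theorem Nb_sub (I : Finset ι) : Nb G D S I ⊆ S := filter_subset _ _

theorem Nb_mono {I J : Finset ι} (h : I ⊆ J) : Nb G D S I ⊆ Nb G D S J := by
  intro s hs
  rw [mem_Nb] at hs ⊢
  obtain ⟨h1, i, hi, h2⟩ := hs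
  exact ⟨h1, i, h hi, h2⟩

theorem Nb_union (I J : Finset ι) : Nb G D S (I ∪ J) = Nb G D S I ∪ Nb G D S J := by
  ext s
  rw [mem_union, mem_Nb, mem_Nb, mem_Nb]
  constructor
  · rintro ⟨h1, i, hi, h2⟩
    rcases mem_union.1 hi with hi | hi
    · exact Or.inl ⟨h1, i, hi, h2⟩
    · exact Or.inr ⟨h1, i, hi, h2⟩
  · rintro (⟨h1, i, hi, h2⟩ | ⟨h1, i, hi, h2⟩)
    · exact ⟨h1, i, mem_union_left _ hi, h2⟩
    · exact ⟨h1, i, mem_union_right _ hi, h2⟩

end basic

section dec

variable {V ι : Type} [Fintype V] [Fintype ι] {G : SimpleGraph V} {k : ℕ} {D : ι → Finset V}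
  {S : Finset V}

theorem Dec.ms (d : Dec G k D S) {s : V} (hs : s ∈ S) : ∃ g : ι → V, Function.Injective g ∧
    ∀ i, g i ∈ S ∧ g i ≠ s ∧ Rel G D (g i) i := d.mat s hs

theorem Dec.hall (d : Dec G k D S) {I : Finset ι} (hI : I.Nonempty) :
    I.card + 1 ≤ (Nb G D S I).card := by
  obtain ⟨i, hi⟩ := hI
  have hSne : S.Nonempty := by
    rw [← card_pos]
    have := d.c3
    omega
  obtain ⟨s0, hs0⟩ := hSne
  obtain ⟨g0, -, hg0⟩ := d.ms hs0
  have hs : g0 i ∈ Nb G D S I := mem_Nb.2 ⟨(hg0 i).1, i, hi, (hg0 i).2.2⟩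
  obtain ⟨g, hg1, hg2⟩ := d.ms (hg0 i).1
  have hsub : I.image g ⊆ (Nb G D S I).erase (g0 i) := by
    intro x hx
    obtain ⟨j, hj, rfl⟩ := mem_image.1 hx
    exact mem_erase.2 ⟨(hg2 j).2.1, mem_Nb.2 ⟨(hg2 j).1, j, hj, (hg2 j).2.2⟩⟩
  have h1 := card_le_card hsub
  rw [card_image_of_injective _ hg1, card_erase_of_mem hs] at h1
  have := card_pos.2 ⟨_, hs⟩
  omega

theorem Dec.card_iota (d : Dec G k D S) : 2 ≤ Fintype.card ι := by
  have h1 := d.c3
  have h2 := d.cS
  omega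

theorem Dec.Nb_univ (d : Dec G k D S) : Nb G D S univ = S := by
  apply eq_of_subset_of_card_le (Nb_sub _)
  have hne : (univ : Finset ι).Nonempty := by
    rw [← card_pos, card_univ]
    have := d.card_iota
    omega
  have h1 := d.hall hne
  rw [card_univ] at h1
  rw [d.cS]
  exact h1

/-- the side `E'` of a tight set -/
noncomputable def Es (G : SimpleGraph V) (D : ι → Finset V) (S : Finset V) (I : Finset ι) : Finset V :=
  univ \ (Nb G D S I ∪ I.biUnion D)

theorem mem_Es {I : Finset ι} {x : V} : x ∈ Es G D S I ↔ x ∉ Nb G D S I ∧ ∀ i ∈ I, x ∉ D i := by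
  unfold Es
  rw [mem_sdiff, mem_union, mem_biUnion]
  constructor
  · rintro ⟨-, h⟩
    exact ⟨fun h' => h (Or.inl h'), fun i hi hx => h (Or.inr ⟨i, hi, hx⟩)⟩
  · rintro ⟨h1, h2⟩
    refine ⟨mem_univ _, ?_⟩
    rintro (h | ⟨i, hi, hx⟩)
    · exact h1 h
    · exact h2 i hi hx

theorem Dec.sum_compl (d : Dec G k D S) (I : Finset ι) :
    ∑ i ∈ I, th G (D i) + ∑ i ∈ Iᶜ, th G (D i) = k := by
  rw [← d.sum]
  exact sum_add_sum_compl I _

/-- the set `D_I` is complete to `E'` -/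
theorem Dec.complete (d : Dec G k D S) {I : Finset ι} {i : ι} (hi : i ∈ I) {x y : V}
    (hx : x ∈ D i) (hy : y ∈ Es G D S I) : G.Adj x y := by
  rw [mem_Es] at hy
  rcases d.cov y with h | ⟨j, hj⟩
  · by_contra hcon
    exact hy.1 (mem_Nb.2 ⟨h, i, hi, x, hx, fun e => hcon e.symm⟩)
  · have hij : i ≠ j := by
      rintro rfl
      exact hy.2 i hi hj
    exact d.comp i j hij x hx y hj

/-- splitting the matching along a tight set -/
theorem Dec.split (d : Dec G k D S) {I : Finset ι} (ht : (Nb G D S I).card ≤ I.card + 1) {s : V}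
    (hs : s ∈ Nb G D S I) :
    th G ((Nb G D S I).erase s ∪ I.biUnion D) ≤ ∑ i ∈ I, th G (D i) ∧
      th G (Es G D S I) ≤ ∑ i ∈ Iᶜ, th G (D i) := by
  obtain ⟨g, hg1, hg2⟩ := d.ms (Nb_sub _ hs)
  have h1 : I.image g = (Nb G D S I).erase s := by
    apply eq_of_subset_of_card_le
    · intro x hx
      obtain ⟨j, hj, rfl⟩ := mem_image.1 hx
      exact mem_erase.2 ⟨(hg2 j).2.1, mem_Nb.2 ⟨(hg2 j).1, j, hj, (hg2 j).2.2⟩⟩
    · rw [card_image_of_injective _ hg1, card_erase_of_mem hs]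
      omega
  have h2 : univ.image g = S.erase s := by
    apply eq_of_subset_of_card_le
    · intro x hx
      obtain ⟨j, hj, rfl⟩ := mem_image.1 hx
      exact mem_erase.2 ⟨(hg2 j).2.1, (hg2 j).1⟩
    · rw [card_image_of_injective _ hg1, card_erase_of_mem (Nb_sub _ hs), d.cS, card_univ]
      omega
  refine ⟨?_, ?_⟩
  · rw [← h1]
    exact absorb d.crit I I (Finset.Subset.refl _) g (fun j _ => (hg2 j).2.2)
  · refine le_trans (th_mono ?_) (absorb d.crit Iᶜ Iᶜ (Finset.Subset.refl _) g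
      (fun j _ => (hg2 j).2.2))
    intro x hx
    rw [mem_Es] at hx
    rcases d.cov x with h | ⟨j, hj⟩
    · have hxs : x ∈ S.erase s := mem_erase.2 ⟨fun e => hx.1 (e ▸ hs), h⟩
      rw [← h2] at hxs
      obtain ⟨j, -, rfl⟩ := mem_image.1 hxs
      refine mem_union_left _ (mem_image_of_mem _ ?_)
      rw [mem_compl]
      intro hj
      exact hx.1 (mem_Nb.2 ⟨h, j, hj, (hg2 j).2.2⟩)
    · refine mem_union_right _ (mem_biUnion.2 ⟨j, ?_, hj⟩)
      rw [mem_compl]
      exact fun h => hx.2 j h hj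

theorem Dec.th_insert (h : Ctx G k) (d : Dec G k D S) {I : Finset ι}
    (ht : (Nb G D S I).card ≤ I.card + 1) {s : V} (hs : s ∈ Nb G D S I) :
    ∑ i ∈ Iᶜ, th G (D i) + 1 ≤ th G (insert s (Es G D S I)) := by
  have h1 := (d.split ht hs).1
  have hsub : (univ : Finset V) ⊆ insert s (Es G D S I) ∪ ((Nb G D S I).erase s ∪ I.biUnion D) := by
    intro x _
    by_cases hx : x ∈ Es G D S I
    · exact mem_union_left _ (mem_insert_of_mem hx)
    · by_cases hxs : x = s
      · exact mem_union_left _ (by rw [hxs]; exact mem_insert_self _ _)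
      · rw [mem_Es] at hx
        by_cases hxN : x ∈ Nb G D S I
        · exact mem_union_right _ (mem_union_left _ (mem_erase.2 ⟨hxs, hxN⟩))
        · push Not at hx
          obtain ⟨i, hi, hxi⟩ := hx hxN
          exact mem_union_right _ (mem_union_right _ (mem_biUnion.2 ⟨i, hi, hxi⟩))
  have h2 := (th_mono (G := G) hsub).trans (th_union_le _ _)
  have h3 := d.sum_compl I
  have h4 := h.nc
  omega

theorem Dec.th_N (h : Ctx G k) (d : Dec G k D S) {I : Finset ι}
    (ht : (Nb G D S I).card ≤ I.card + 1) {s : V} (hs : s ∈ Nb G D S I) :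
    ∑ i ∈ I, th G (D i) + 1 ≤ th G (Nb G D S I ∪ I.biUnion D) := by
  have h1 := (d.split ht hs).2
  have hsub : (univ : Finset V) ⊆ Es G D S I ∪ (Nb G D S I ∪ I.biUnion D) := by
    intro x _
    unfold Es
    by_cases hx : x ∈ Nb G D S I ∪ I.biUnion D
    · exact mem_union_right _ hx
    · exact mem_union_left _ (mem_sdiff.2 ⟨mem_univ _, hx⟩)
  have h2 := (th_mono (G := G) hsub).trans (th_union_le _ _)
  have h3 := d.sum_compl I
  have h4 := h.nc
  omega

theorem Dec.th_DI (d : Dec G k D S) (I : Finset ι) : ∑ i ∈ I, th G (D i) ≤ th G (I.biUnion D) :=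
  th_biUnion_ge _ _ (fun i _ j _ hij => d.comp i j hij)

/-- a model of `D_I` -/
theorem Dec.modelD (h : Ctx G k) (d : Dec G k D S) (I : Finset ι) :
    ∃ F : Finset (Finset V), IsM G F ∧ (∀ B ∈ F, B ⊆ I.biUnion D) ∧
      ∑ i ∈ I, th G (D i) ≤ F.card := by
  have hne : I.biUnion D ≠ univ := by
    intro he
    have hSne : S.Nonempty := by
      rw [← card_pos]
      have := d.c3
      omega
    obtain ⟨s, hs⟩ := hSne
    have hsu := mem_univ s
    rw [← he] at hsu
    obtain ⟨i, -, hi⟩ := mem_biUnion.1 hsu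
    exact Finset.disjoint_left.1 (d.dS i) hs hi
  obtain ⟨F, hF1, hF2, hF3⟩ := h.min _ hne
  exact ⟨F, hF1, hF2, by rw [hF3]; exact d.th_DI I⟩

theorem Dec.Es_disj (_d : Dec G k D S) {I : Finset ι} {B C : Finset V} (hB : B ⊆ Es G D S I)
    (hC : C ⊆ Nb G D S I ∪ I.biUnion D) : Disjoint B C := by
  rw [Finset.disjoint_left]
  intro x hx hx'
  have h1 := hB hx
  unfold Es at h1
  exact (mem_sdiff.1 h1).2 (hC hx')

/-- (a): models of `E'` touching a given vertex of `N(I)` -/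
theorem Dec.modelE (h : Ctx G k) (d : Dec G k D S) {I : Finset ι} (hI : I.Nonempty)
    (ht : (Nb G D S I).card ≤ I.card + 1) {s : V} (hs : s ∈ Nb G D S I) :
    ∃ F : Finset (Finset V), IsM G F ∧ (∀ B ∈ F, B ⊆ Es G D S I) ∧
      ∑ i ∈ Iᶜ, th G (D i) ≤ F.card ∧ ∀ B ∈ F, ∃ x ∈ B, G.Adj s x := by
  have hsE : s ∉ Es G D S I := fun h' => (mem_Es.1 h').1 hs
  have hne : insert s (Es G D S I) ≠ univ := by
    intro he
    obtain ⟨i, hi⟩ := hI
    obtain ⟨x, hx⟩ := d.ne i
    have hxu := mem_univ x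
    rw [← he] at hxu
    rcases mem_insert.1 hxu with rfl | hx'
    · exact Finset.disjoint_left.1 (d.dS i) (Nb_sub _ hs) hx
    · exact (mem_Es.1 hx').2 i hi hx
  obtain ⟨F, hF1, hF2, hF3⟩ := h.min _ hne
  have hF4 := d.th_insert h ht hs
  rw [← hF3] at hF4
  have hsF : {s} ∈ F := by
    by_contra hcon
    have hmeet : ∀ B ∈ F, ∃ x ∈ B, x ∈ Es G D S I := by
      intro B hB
      by_contra hc
      push Not at hc
      have h1 : ∀ x ∈ B, x = s := by
        intro x hx
        rcases mem_insert.1 (hF2 B hB hx) with hx' | hx'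
        · exact hx'
        · exact absurd hx' (hc x hx)
      obtain ⟨x, hx⟩ := (hF1.1 B hB).nonempty
      apply hcon
      have : B = {s} := by
        ext y
        rw [mem_singleton]
        constructor
        · exact h1 y
        · rintro rfl
          rwa [← h1 x hx]
      rwa [← this]
    obtain ⟨F', hF1', hF2', hF3'⟩ := d.modelD h I
    have hu := hF1.union hF1' (by
      intro B hB C hC
      rw [Finset.disjoint_left]
      intro x hx hx'
      obtain ⟨i, hi, hxi⟩ := mem_biUnion.1 (hF2' C hC hx')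
      rcases mem_insert.1 (hF2 B hB hx) with rfl | hx''
      · exact Finset.disjoint_left.1 (d.dS i) (Nb_sub _ hs) hxi
      · exact (mem_Es.1 hx'').2 i hi hxi) (by
      intro B hB C hC
      obtain ⟨x, hx, hxE⟩ := hmeet B hB
      obtain ⟨y, hy⟩ := (hF1'.1 C hC).nonempty
      obtain ⟨i, hi, hyi⟩ := mem_biUnion.1 (hF2' C hC hy)
      exact ⟨x, hx, y, hy, (d.complete hi hyi hxE).symm⟩)
    have h1 := h.no _ hu.1
    have h3 := d.sum_compl I
    omega
  refine ⟨F.erase {s}, hF1.sub (erase_subset _ _), ?_, ?_, ?_⟩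
  · intro B hB x hx
    obtain ⟨hBs, hBF⟩ := mem_erase.1 hB
    rcases mem_insert.1 (hF2 B hBF hx) with rfl | hx'
    · exact absurd (mem_singleton_self _) (Finset.disjoint_left.1 (hF1.2 B hBF _ hsF hBs).1 hx)
    · exact hx'
  · rw [card_erase_of_mem hsF]
    omega
  · intro B hB
    obtain ⟨hBs, hBF⟩ := mem_erase.1 hB
    obtain ⟨u, hu, v, hv, huv⟩ := (hF1.2 B hBF _ hsF hBs).2
    rw [mem_singleton] at hv
    exact ⟨u, hu, by rw [← hv]; exact huv.symm⟩

/-- (b): the model of `N(I) ∪ D_I` cannot be completed -/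
theorem Dec.modelN (h : Ctx G k) (d : Dec G k D S) {I : Finset ι} (hI : I.Nonempty)
    (hI' : I ≠ univ) (ht : (Nb G D S I).card ≤ I.card + 1) :
    ∃ N : Finset (Finset V), IsM G N ∧ ∀ F : Finset (Finset V), IsM G F →
      (∀ B ∈ F, B ⊆ Es G D S I) → ∑ i ∈ Iᶜ, th G (D i) ≤ F.card →
      ∃ B ∈ F, ∃ C ∈ N, C ⊆ Nb G D S I ∧ ¬ Touch G B C := by
  have hNne : (Nb G D S I).Nonempty := by
    rw [← card_pos]
    have := d.hall hI
    omega
  obtain ⟨s, hs⟩ := hNne
  have hne : Nb G D S I ∪ I.biUnion D ≠ univ := by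
    intro he
    obtain ⟨j, hj⟩ : ∃ j, j ∉ I := by
      by_contra hc
      push Not at hc
      exact hI' (eq_univ_iff_forall.2 hc)
    obtain ⟨x, hx⟩ := d.ne j
    have hxu := mem_univ x
    rw [← he] at hxu
    rcases mem_union.1 hxu with hx' | hx'
    · exact Finset.disjoint_left.1 (d.dS j) (Nb_sub _ hx') hx
    · obtain ⟨i, hi, hxi⟩ := mem_biUnion.1 hx'
      have hij : i ≠ j := by
        rintro rfl
        exact hj hi
      exact G.loopless.irrefl _ (d.comp i j hij x hxi x hx)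
  obtain ⟨N, hN1, hN2, hN3⟩ := h.min _ hne
  have hN4 := d.th_N h ht hs
  rw [← hN3] at hN4
  refine ⟨N, hN1, ?_⟩
  intro F hF1 hF2 hF3
  by_contra hcon
  push Not at hcon
  have hu := hF1.union hN1 (fun B hB C hC => d.Es_disj (hF2 B hB) (hN2 C hC)) (by
    intro B hB C hC
    by_cases hCN : C ⊆ Nb G D S I
    · exact hcon B hB C hC hCN
    · obtain ⟨x, hx, hxN⟩ := Finset.not_subset.1 hCN
      rcases mem_union.1 (hN2 C hC hx) with hx' | hx'
      · exact absurd hx' hxN
      · obtain ⟨i, hi, hxi⟩ := mem_biUnion.1 hx'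
        obtain ⟨y, hy⟩ := (hF1.1 B hB).nonempty
        exact ⟨y, hy, x, hx, (d.complete hi hxi (hF2 B hB hy)).symm⟩)
  have h1 := h.no _ hu.1
  have h3 := d.sum_compl I
  omega

/-- `N(I)` contains two adjacent vertices -/
theorem Dec.exists_adj (h : Ctx G k) (d : Dec G k D S) {I : Finset ι} (hI : I.Nonempty)
    (hI' : I ≠ univ) (ht : (Nb G D S I).card ≤ I.card + 1) :
    ∃ s ∈ Nb G D S I, ∃ t ∈ Nb G D S I, G.Adj s t := by
  obtain ⟨N, hN1, hN2⟩ := d.modelN h hI hI' ht
  have hNne : (Nb G D S I).Nonempty := by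
    rw [← card_pos]
    have := d.hall hI
    omega
  obtain ⟨s0, hs0⟩ := hNne
  obtain ⟨F0, hF1, hF2, hF3, hF4⟩ := d.modelE h hI ht hs0
  obtain ⟨B0, hB0, C, hC, hCN, -⟩ := hN2 F0 hF1 hF2 hF3
  obtain ⟨s, hs⟩ := (hN1.1 C hC).nonempty
  obtain ⟨F, hF1, hF2, hF3, hF4⟩ := d.modelE h hI ht (hCN hs)
  obtain ⟨B, hB, C', hC', hCN', hnt⟩ := hN2 F hF1 hF2 hF3
  have hne : C ≠ C' := by
    rintro rfl
    obtain ⟨x, hx, hsx⟩ := hF4 B hB
    exact hnt ⟨x, hx, s, hs, hsx.symm⟩
  obtain ⟨u, hu, v, hv, huv⟩ := (hN1.2 C hC C' hC' hne).2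
  exact ⟨u, hCN hu, v, hCN' hv, huv⟩

/-- (c): `G[N(I)]` is not connected -/
theorem Dec.not_conn (h : Ctx G k) (d : Dec G k D S) {I : Finset ι} (hI : I.Nonempty)
    (hI' : I ≠ univ) (ht : (Nb G D S I).card ≤ I.card + 1) : ¬ Conn G (Nb G D S I) := by
  intro hconn
  obtain ⟨N, hN1, hN2⟩ := d.modelN h hI hI' ht
  have hunif : ∀ x ∈ Es G D S I, ∀ s ∈ Nb G D S I, G.Adj x s → ∀ t ∈ Nb G D S I, G.Adj x t := by
    intro x hx s hs hxs t htN
    by_contra hxt
    have hxN : x ∉ Nb G D S I := (mem_Es.1 hx).1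
    have hC : Conn G ({x} ∪ Nb G D S I) :=
      conn_union' (conn_single x) hconn ⟨x, mem_singleton_self _, s, hs, hxs⟩
    have hC2 : 2 ≤ ({x} ∪ Nb G D S I).card := by
      rw [← Finset.insert_eq, card_insert_of_notMem hxN]
      have := card_pos.2 ⟨s, hs⟩
      omega
    obtain ⟨φ, hφ1, hφ2⟩ := h.con _ hC hC2
    have hmC : ∀ y, y ∈ {x} ∪ Nb G D S I ↔ y = x ∨ y ∈ Nb G D S I := by
      intro y
      rw [mem_union, mem_singleton]
    have hDC : ∀ i ∈ I, ∀ a ∈ D i, a ∉ {x} ∪ Nb G D S I := by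
      intro i hi a ha ha'
      rcases (hmC a).1 ha' with rfl | ha''
      · exact (mem_Es.1 hx).2 i hi ha
      · exact Finset.disjoint_left.1 (d.dS i) (Nb_sub _ ha'') ha
    -- colours on `insert t E'`
    have h1 : th G (insert t (Es G D S I)) ≤ ((insert t (Es G D S I)).image φ).card := by
      apply th_le_image
      intro u hu v hv huv
      have hin : ∀ y, y ∈ insert t (Es G D S I) → y ∈ {x} ∪ Nb G D S I → y = x ∨ y = t := by
        intro y hy hy'
        rcases mem_insert.1 hy with rfl | hyE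
        · exact Or.inr rfl
        · rcases (hmC y).1 hy' with h' | h'
          · exact Or.inl h'
          · exact absurd h' (mem_Es.1 hyE).1
      by_cases hu' : u ∈ {x} ∪ Nb G D S I
      · by_cases hv' : v ∈ {x} ∪ Nb G D S I
        · exfalso
          rcases hin u hu hu' with rfl | rfl <;> rcases hin v hv hv' with rfl | rfl
          · exact G.loopless.irrefl _ huv
          · exact hxt huv
          · exact hxt huv.symm
          · exact G.loopless.irrefl _ huv
        · exact hφ2 u v huv (Or.inr hv')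
      · exact hφ2 u v huv (Or.inl hu')
    have h2 : th G (I.biUnion D) ≤ ((I.biUnion D).image φ).card := by
      apply th_le_image
      intro u hu v hv huv
      obtain ⟨i, hi, hui⟩ := mem_biUnion.1 hu
      exact hφ2 u v huv (Or.inl (hDC i hi u hui))
    have h3 : Disjoint ((insert t (Es G D S I)).image φ) ((I.biUnion D).image φ) := by
      rw [Finset.disjoint_left]
      intro c hc hc'
      obtain ⟨b, hb, hbc⟩ := mem_image.1 hc'
      obtain ⟨i, hi, hbi⟩ := mem_biUnion.1 hb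
      have h4 : ∀ y ∈ Es G D S I, φ y ≠ c := by
        intro y hy he
        exact hφ2 b y (d.complete hi hbi hy) (Or.inl (hDC i hi b hbi)) (hbc.trans he.symm)
      obtain ⟨a, ha, hac⟩ := mem_image.1 hc
      rcases mem_insert.1 ha with rfl | haE
      · apply h4 x hx
        rw [← hac]
        exact hφ1 x ((hmC x).2 (Or.inl rfl)) a ((hmC a).2 (Or.inr htN))
      · exact h4 a haE hac
    have h4 := Finset.card_le_univ ((insert t (Es G D S I)).image φ ∪ (I.biUnion D).image φ)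
    rw [card_union_of_disjoint h3, Fintype.card_fin] at h4
    have h5 := d.th_insert h ht htN
    have h6 := d.th_DI I
    have h7 := d.sum_compl I
    omega
  obtain ⟨s, hs⟩ := hconn.nonempty
  obtain ⟨F, hF1, hF2, hF3, hF4⟩ := d.modelE h hI ht hs
  obtain ⟨B, hB, C, hC, hCN, hnt⟩ := hN2 F hF1 hF2 hF3
  obtain ⟨x, hx, hsx⟩ := hF4 B hB
  obtain ⟨t, htC⟩ := (hN1.1 C hC).nonempty
  exact hnt ⟨x, hx, t, htC, hunif x (hF2 B hB hx) s hs hsx.symm t (hCN htC)⟩

/-- (3): `G[S]` is not connected -/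
theorem Dec.not_conn_S (h : Ctx G k) (d : Dec G k D S) : ¬ Conn G S := by
  intro hconn
  obtain ⟨F, hF1, hF2, hF3⟩ := d.modelD h univ
  rw [d.sum] at hF3
  have hdis : ∀ B ∈ F, ∀ x ∈ B, x ∉ S := by
    intro B hB x hx hxS
    obtain ⟨i, -, hi⟩ := mem_biUnion.1 (hF2 B hB hx)
    exact Finset.disjoint_left.1 (d.dS i) hxS hi
  have hu := hF1.insert hconn (by
    intro C hC
    rw [Finset.disjoint_left]
    intro x hx hx'
    exact hdis C hC x hx' hx) (by
    intro C hC
    obtain ⟨x, hx⟩ := (hF1.1 C hC).nonempty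
    obtain ⟨s, hs, hxs⟩ := d.tch x (hdis C hC x hx)
    exact ⟨s, hs, x, hx, hxs.symm⟩)
  have h1 := h.no _ hu.1
  omega

end dec

end Pool.Agent.HM
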