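import Mathlib
import Pool.Agent.HM.Tight
import Pool.Agent.HM.Constr

/-!
# HM: section (5) of Theorem M and the theorem
-/

set_option autoImplicit false

namespace Pool.Agent.HM

open Finset Pool.Agent.CA31
open scoped Classical

/-- a nonempty set which is not connected splits -/
theorem exists_split {V : Type} {G : SimpleGraph V} {X : Finset V} (hX : X.Nonempty)
    (h : ¬ Conn G X) : ∃ A ⊆ X, A.Nonempty ∧ (X \ A).Nonempty ∧
      ∀ a ∈ A, ∀ b ∈ X \ A, ¬ G.Adj a b := by
  by_contra hcon
  apply h
  obtain ⟨x0, hx0⟩ := hX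
  have : Nonempty (X : Set V) := ⟨⟨x0, hx0⟩⟩
  refine SimpleGraph.Connected.mk ?_
  intro u v
  by_contra hr
  apply hcon
  let A : Finset V := X.filter (fun w => ∃ hw : w ∈ (X : Set V), (G.induce (X : Set V)).Reachable u ⟨w, hw⟩)
  refine ⟨A, filter_subset _ _, ⟨u.1, ?_⟩, ⟨v.1, ?_⟩, ?_⟩
  · rw [mem_filter]
    exact ⟨u.2, u.2, SimpleGraph.Reachable.refl _⟩
  · rw [mem_sdiff, mem_filter]
    refine ⟨v.2, ?_⟩
    rintro ⟨-, hw, hr'⟩
    exact hr hr'
  · intro a ha b hb hab
    rw [mem_filter] at ha
    rw [mem_sdiff, mem_filter] at hb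
    obtain ⟨haX, haX', har⟩ := ha
    refine hb.2 ⟨hb.1, hb.1, har.trans (SimpleGraph.Adj.reachable ?_)⟩
    exact hab

section dec

variable {V ι : Type} [Fintype V] [Fintype ι] {G : SimpleGraph V} {k : ℕ} {D : ι → Finset V}
  {S : Finset V}

/-- a minimal tight set -/
theorem Dec.exists_min (d : Dec G k D S) : ∃ I : Finset ι, I.Nonempty ∧
    (Nb G D S I).card = I.card + 1 ∧
    ∀ J : Finset ι, J.Nonempty → J ⊂ I → J.card + 2 ≤ (Nb G D S J).card := by
  have hne : (univ : Finset ι).Nonempty := by
    rw [← card_pos, card_univ]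
    have := d.card_iota
    omega
  obtain ⟨I, hI, hImin⟩ := Finset.exists_min_image
    ((univ : Finset (Finset ι)).filter (fun I => I.Nonempty ∧ (Nb G D S I).card ≤ I.card + 1))
    Finset.card ⟨univ, by
      simp only [mem_filter, mem_univ, true_and]
      refine ⟨hne, ?_⟩
      rw [d.Nb_univ, d.cS, card_univ]⟩
  simp only [mem_filter, mem_univ, true_and] at hI hImin
  refine ⟨I, hI.1, le_antisymm hI.2 (d.hall hI.1), ?_⟩
  intro J hJ hJI
  by_contra hcon
  have h1 := hImin J ⟨hJ, by omega⟩
  have h2 := card_lt_card hJI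
  omega

/-- the matching of `S \ {s, t}` onto the components other than `i` -/
theorem Dec.match2 (d : Dec G k D S) {I : Finset ι} (hI : I.Nonempty)
    (ht : (Nb G D S I).card = I.card + 1)
    (hmin : ∀ J : Finset ι, J.Nonempty → J ⊂ I → J.card + 2 ≤ (Nb G D S J).card)
    {s t : V} (hs : s ∈ Nb G D S I) (htN : t ∈ Nb G D S I) (hst : s ≠ t) {i : ι} (hi : i ∈ I) :
    ∃ g : ι → V, (∀ j ∈ univ.erase i, Rel G D (g j) j) ∧
      ((S.erase s).erase t) ⊆ (univ.erase i).image g := by
  let T : {j : ι // j ≠ i} → Finset V := fun j => ((S.erase s).erase t).filter (fun x => Rel G D x j.1)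
  have hHall : ∀ J : Finset {j : ι // j ≠ i}, J.card ≤ (J.biUnion T).card := by
    intro J
    rcases J.eq_empty_or_nonempty with rfl | hJ
    · simp
    let J' : Finset ι := J.image Subtype.val
    have hJ'card : J'.card = J.card := card_image_of_injective _ Subtype.val_injective
    have hJ' : J'.Nonempty := hJ.image _
    have hiJ' : i ∉ J' := by
      intro h'
      obtain ⟨j, -, hj⟩ := mem_image.1 h'
      exact j.2 hj
    have hsub : ((Nb G D S J').erase s).erase t ⊆ J.biUnion T := by
      intro x hx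
      obtain ⟨hxt, hx⟩ := mem_erase.1 hx
      obtain ⟨hxs, hx⟩ := mem_erase.1 hx
      obtain ⟨hxS, j, hj, hxj⟩ := mem_Nb.1 hx
      obtain ⟨j', hj', rfl⟩ := mem_image.1 hj
      refine mem_biUnion.2 ⟨j', hj', ?_⟩
      simp only [T, mem_filter]
      exact ⟨mem_erase.2 ⟨hxt, mem_erase.2 ⟨hxs, hxS⟩⟩, hxj⟩
    have h1 := card_le_card hsub
    have h2 := d.hall hJ'
    rw [← hJ'card]
    by_cases hsJ : s ∈ Nb G D S J'
    · by_cases htJ : t ∈ Nb G D S J'
      · -- both: use minimality
        have h3 : J'.card + 2 ≤ (Nb G D S J').card := by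
          by_contra hcon
          have h4 : (Nb G D S J').card = J'.card + 1 := by omega
          have h5 := card_union_add_card_inter (Nb G D S J') (Nb G D S I)
          rw [← Nb_union] at h5
          have h6 := card_union_add_card_inter J' I
          have h7 : (J' ∪ I).card + 1 ≤ (Nb G D S (J' ∪ I)).card :=
            d.hall (hI.mono subset_union_right)
          have h8 : 2 ≤ (Nb G D S J' ∩ Nb G D S I).card := by
            have : ({s, t} : Finset V) ⊆ Nb G D S J' ∩ Nb G D S I := by
              intro x hx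
              rw [mem_insert, mem_singleton] at hx
              rcases hx with rfl | rfl
              · exact mem_inter.2 ⟨hsJ, hs⟩
              · exact mem_inter.2 ⟨htJ, htN⟩
            have := card_le_card this
            rwa [card_pair hst] at this
          have h9 : (J' ∩ I).Nonempty := by
            rw [← card_pos]
            omega
          have h10 : J' ∩ I ⊂ I := by
            rw [ssubset_iff_subset_ne]
            refine ⟨inter_subset_right, ?_⟩
            intro he
            have : i ∈ J' ∩ I := he.symm ▸ hi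
            exact hiJ' (mem_inter.1 this).1
          have h11 := hmin _ h9 h10
          have h12 : Nb G D S (J' ∩ I) ⊆ Nb G D S J' ∩ Nb G D S I :=
            subset_inter (Nb_mono inter_subset_left) (Nb_mono inter_subset_right)
          have h13 := card_le_card h12
          omega
        rw [card_erase_of_mem (mem_erase.2 ⟨hst.symm, htJ⟩), card_erase_of_mem hsJ] at h1
        omega
      · rw [erase_eq_of_notMem (fun h' => htJ (mem_of_mem_erase h')), card_erase_of_mem hsJ] at h1
        omega
    · rw [erase_eq_of_notMem hsJ] at h1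
      have h3 := Finset.pred_card_le_card_erase (s := Nb G D S J') (a := t)
      omega
  obtain ⟨f, hf1, hf2⟩ := (Finset.all_card_le_biUnion_card_iff_exists_injective T).1 hHall
  let g : ι → V := fun j => if hj : j ≠ i then f ⟨j, hj⟩ else s
  have hg : ∀ j (hj : j ≠ i), g j = f ⟨j, hj⟩ := fun j hj => by
    simp only [g, hj, ne_eq, not_false_eq_true, dif_pos]
  have hg2 : ∀ j ∈ univ.erase i, g j ∈ (S.erase s).erase t ∧ Rel G D (g j) j := by
    intro j hj
    have hji := (mem_erase.1 hj).1
    rw [hg j hji]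
    have h1 := hf2 ⟨j, hji⟩
    simp only [T, mem_filter] at h1
    exact h1
  refine ⟨g, fun j hj => (hg2 j hj).2, ?_⟩
  have himg : (univ.erase i).image g = (S.erase s).erase t := by
    apply eq_of_subset_of_card_le
    · intro x hx
      obtain ⟨j, hj, rfl⟩ := mem_image.1 hx
      exact (hg2 j hj).1
    · rw [card_image_of_injOn]
      · rw [card_erase_of_mem (mem_erase.2 ⟨hst.symm, Nb_sub _ htN⟩), card_erase_of_mem (Nb_sub _ hs),
          card_erase_of_mem (mem_univ i), card_univ, d.cS]
        omega
      · intro a ha b hb hab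
        have ha' := (mem_erase.1 (mem_coe.1 ha)).1
        have hb' := (mem_erase.1 (mem_coe.1 hb)).1
        rw [hg a ha', hg b hb'] at hab
        exact congrArg Subtype.val (hf1 hab)
  rw [himg]

/-- (Q): no vertex of `D i` is nonadjacent to both `s` and `t` -/
theorem Dec.Q (h : Ctx G k) (d : Dec G k D S) {I : Finset ι} (hI : I.Nonempty)
    (ht : (Nb G D S I).card = I.card + 1)
    (hmin : ∀ J : Finset ι, J.Nonempty → J ⊂ I → J.card + 2 ≤ (Nb G D S J).card)
    {s t : V} (hs : s ∈ Nb G D S I) (htN : t ∈ Nb G D S I) (hst : s ≠ t) (hadj : ¬ G.Adj s t)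
    {i : ι} (hi : i ∈ I) {x : V} (hx : x ∈ D i) : G.Adj s x ∨ G.Adj t x := by
  by_contra hcon
  push Not at hcon
  obtain ⟨hsx, htx⟩ := hcon
  obtain ⟨g, hg1, hg2⟩ := d.match2 hI ht hmin hs htN hst hi
  have h1 := absorb d.crit (univ.erase i) (univ.erase i) (Finset.Subset.refl _) g hg1
  have hsub : (univ : Finset V) ⊆ ({s, t, x} ∪ (D i).erase x) ∪
      ((univ.erase i).image g ∪ (univ.erase i).biUnion D) := by
    intro y _
    rcases d.cov y with hy | ⟨j, hj⟩
    · by_cases hys : y = s
      · exact mem_union_left _ (mem_union_left _ (by rw [hys]; exact mem_insert_self _ _))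
      · by_cases hyt : y = t
        · exact mem_union_left _ (mem_union_left _ (by
            rw [hyt]; exact mem_insert_of_mem (mem_insert_self _ _)))
        · exact mem_union_right _ (mem_union_left _ (hg2
            (mem_erase.2 ⟨hyt, mem_erase.2 ⟨hys, hy⟩⟩)))
    · by_cases hij : j = i
      · subst hij
        by_cases hyx : y = x
        · exact mem_union_left _ (mem_union_left _ (by
            rw [hyx]; exact mem_insert_of_mem (mem_insert_of_mem (mem_singleton_self _))))
        · exact mem_union_left _ (mem_union_right _ (mem_erase.2 ⟨hyx, hj⟩))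
      · exact mem_union_right _ (mem_union_right _ (mem_biUnion.2
          ⟨j, mem_erase.2 ⟨hij, mem_univ _⟩, hj⟩))
  have h2 := (th_mono (G := G) hsub).trans (th_union_le _ _)
  have h3 := th_union_le (G := G) {s, t, x} ((D i).erase x)
  have h4 : th G {s, t, x} ≤ 1 := by
    apply th_le_one
    have irr : ∀ x, ¬ G.Adj x x := fun x => G.loopless.irrefl x
    intro u hu v hv
    simp only [mem_insert, mem_singleton] at hu hv
    rcases hu with rfl | rfl | rfl <;> rcases hv with rfl | rfl | rfl <;>
      first | exact irr _ | assumption | (intro e; exact absurd e.symm (by assumption))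
  have h5 := d.crit i x hx
  have h6 : ∑ j ∈ univ.erase i, th G (D j) + th G (D i) = ∑ j, th G (D j) :=
    Finset.sum_erase_add _ _ (mem_univ i)
  have h7 := h.nc
  have h8 := d.sum
  omega

/-- components touched from two nonadjacent sides are large -/
theorem Dec.three_le (d : Dec G k D S) {i : ι} {x y : V} (hx : x ∈ D i) (hy : y ∈ D i)
    (hxy : x ≠ y) : 3 ≤ th G (D i) := by
  have h1 := d.card i
  have h2 : 2 ≤ (D i).card := by
    have : ({x, y} : Finset V) ⊆ D i := by
      intro z hz
      rw [mem_insert, mem_singleton] at hz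
      rcases hz with rfl | rfl
      · exact hx
      · exact hy
    have := card_le_card this
    rwa [card_pair hxy] at this
  by_contra hcon
  have h3 : th G (D i) = 2 := by omega
  have h4 : (D i).card = 3 := by omega
  -- an edge of `D i`
  have h5 : ∃ a ∈ D i, ∃ b ∈ D i, G.Adj a b := by
    by_contra hc
    push Not at hc
    have := th_le_one hc
    omega
  obtain ⟨a, ha, b, hb, hab⟩ := h5
  obtain ⟨c, hc, hca, hcb⟩ : ∃ c ∈ D i, c ≠ a ∧ c ≠ b := by
    by_contra hcon'
    push Not at hcon'
    have : D i ⊆ {a, b} := by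
      intro z hz
      rw [mem_insert, mem_singleton]
      by_cases hza : z = a
      · exact Or.inl hza
      · exact Or.inr (hcon' z hz hza)
    have := card_le_card this
    rw [card_pair hab.ne] at this
    omega
  have h6 := d.crit i c hc
  have h7 : ColOn G ((D i).erase c) 1 := th_le_iff.1 (by omega)
  obtain ⟨φ, h8, h9⟩ := h7
  have ha' : a ∈ (D i).erase c := mem_erase.2 ⟨hca.symm, ha⟩
  have hb' : b ∈ (D i).erase c := mem_erase.2 ⟨hcb.symm, hb⟩
  have e1 := h8 a ha'
  have e2 := h8 b hb'
  exact h9 a ha' b hb' hab (by omega)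

/-- (5), the conclusion -/
theorem Dec.contra (h : Ctx G k) (d : Dec G k D S) : False := by
  obtain ⟨I, hI, ht, hmin⟩ := d.exists_min
  set X := Nb G D S I with hX
  have hconn : ¬ Conn G X := by
    by_cases hIu : I = univ
    · rw [hX, hIu, d.Nb_univ]
      exact d.not_conn_S h
    · exact d.not_conn h hI hIu ht.le
  have hI2 : 2 ≤ I.card := by
    by_cases hIu : I = univ
    · rw [hIu, card_univ]
      exact d.card_iota
    · by_contra hcon
      have hI1 : I.card = 1 := by
        have := card_pos.2 hI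
        omega
      obtain ⟨s, hs, t, htN, hst⟩ := d.exists_adj h hI hIu ht.le
      apply hconn
      have : X = {s, t} := by
        symm
        apply eq_of_subset_of_card_le
        · intro z hz
          rw [mem_insert, mem_singleton] at hz
          rcases hz with rfl | rfl
          · exact hs
          · exact htN
        · rw [card_pair hst.ne, ht, hI1]
      rw [this]
      exact conn_pair hst
  have hXne : X.Nonempty := by
    rw [← card_pos]
    omega
  obtain ⟨A, hAX, hA, hB, hAB⟩ := exists_split hXne hconn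
  -- classification of the components
  let I1 : Finset ι := I.filter (fun i => ∀ s ∈ X, Rel G D s i → s ∈ A)
  let I2 : Finset ι := I.filter (fun i => ∀ s ∈ X, Rel G D s i → s ∈ X \ A)
  have hRne : ∀ i ∈ I, ∃ s ∈ X, Rel G D s i := by
    intro i hi
    have h1 := d.hall (I := {i}) (singleton_nonempty i)
    rw [card_singleton] at h1
    obtain ⟨s, hs⟩ : (Nb G D S {i}).Nonempty := by
      rw [← card_pos]
      omega
    obtain ⟨hsS, j, hj, hsj⟩ := mem_Nb.1 hs
    rw [mem_singleton] at hj
    subst hj
    exact ⟨s, mem_Nb.2 ⟨hsS, j, hi, hsj⟩, hsj⟩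
  have hI1c : I1.card + 1 ≤ A.card ∧ (I1.Nonempty → I1.card + 2 ≤ A.card) := by
    have h1 : I1.Nonempty → I1.card + 2 ≤ A.card := by
      intro hne
      have hsub : Nb G D S I1 ⊆ A := by
        intro s hs
        obtain ⟨hsS, i, hi, hsi⟩ := mem_Nb.1 hs
        rw [mem_filter] at hi
        exact hi.2 s (mem_Nb.2 ⟨hsS, i, hi.1, hsi⟩) hsi
      have hss : I1 ⊂ I := by
        rw [ssubset_iff_subset_ne]
        refine ⟨filter_subset _ _, ?_⟩
        intro he
        obtain ⟨b, hb⟩ := hB
        rw [mem_sdiff] at hb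
        apply hb.2
        apply hsub
        rw [he]
        exact hb.1
      exact (hmin I1 hne hss).trans (card_le_card hsub)
    refine ⟨?_, h1⟩
    rcases I1.eq_empty_or_nonempty with he | hne
    · rw [he, card_empty]
      exact card_pos.2 hA
    · have := h1 hne
      omega
  have hI2c : I2.card + 1 ≤ (X \ A).card ∧ (I2.Nonempty → I2.card + 2 ≤ (X \ A).card) := by
    have h1 : I2.Nonempty → I2.card + 2 ≤ (X \ A).card := by
      intro hne
      have hsub : Nb G D S I2 ⊆ X \ A := by
        intro s hs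
        obtain ⟨hsS, i, hi, hsi⟩ := mem_Nb.1 hs
        rw [mem_filter] at hi
        exact hi.2 s (mem_Nb.2 ⟨hsS, i, hi.1, hsi⟩) hsi
      have hss : I2 ⊂ I := by
        rw [ssubset_iff_subset_ne]
        refine ⟨filter_subset _ _, ?_⟩
        intro he
        obtain ⟨a, ha⟩ := hA
        have : a ∈ X \ A := by
          apply hsub
          rw [he]
          exact hAX ha
        exact (mem_sdiff.1 this).2 ha
      exact (hmin I2 hne hss).trans (card_le_card hsub)
    refine ⟨?_, h1⟩
    rcases I2.eq_empty_or_nonempty with he | hne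
    · rw [he, card_empty]
      exact card_pos.2 hB
    · have := h1 hne
      omega
  have hXc : A.card + (X \ A).card = I.card + 1 := by
    rw [← ht]
    have := card_sdiff_add_card_eq_card hAX
    omega
  -- at least two mixed components
  have hmix : 2 ≤ (I \ (I1 ∪ I2)).card := by
    have h1 : (I1 ∪ I2).card ≤ I1.card + I2.card := card_union_le _ _
    have h2 : I1 ∪ I2 ⊆ I := union_subset (filter_subset _ _) (filter_subset _ _)
    have h3 := card_sdiff_add_card_eq_card h2
    rcases I1.eq_empty_or_nonempty with he1 | hne1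
    · rcases I2.eq_empty_or_nonempty with he2 | hne2
      · have c1 : I1.card = 0 := by rw [he1, card_empty]
        have c2 : I2.card = 0 := by rw [he2, card_empty]
        omega
      · have := hI2c.2 hne2
        have := hI1c.1
        omega
    · have := hI1c.2 hne1
      have := hI2c.1
      omega
  obtain ⟨i, hi, j, hj, hij⟩ := Finset.one_lt_card.1 hmix
  -- mixed components are large
  have hQ : ∀ a ∈ A, ∀ b ∈ X \ A, ∀ l ∈ I, ∀ x ∈ D l, G.Adj a x ∨ G.Adj b x := by
    intro a ha b hb l hl x hx
    refine d.Q h hI ht hmin (hAX ha) (mem_sdiff.1 hb).1 ?_ (hAB a ha b hb) hl hx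
    rintro rfl
    exact (mem_sdiff.1 hb).2 ha
  have hbig : ∀ l ∈ I \ (I1 ∪ I2), l ∈ I ∧ 3 ≤ th G (D l) := by
    intro l hl
    rw [mem_sdiff, mem_union, not_or] at hl
    obtain ⟨hlI, hl1, hl2⟩ := hl
    refine ⟨hlI, ?_⟩
    have h1 : ∃ b ∈ X \ A, Rel G D b l := by
      by_contra hc
      push Not at hc
      apply hl1
      rw [mem_filter]
      refine ⟨hlI, fun s hs hsl => ?_⟩
      by_contra hsA
      exact hc s (mem_sdiff.2 ⟨hs, hsA⟩) hsl
    have h2 : ∃ a ∈ A, Rel G D a l := by
      by_contra hc
      push Not at hc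
      apply hl2
      rw [mem_filter]
      exact ⟨hlI, fun s hs hsl => mem_sdiff.2 ⟨hs, fun hsA => hc s hsA hsl⟩⟩
    obtain ⟨b, hb, y, hy, hby⟩ := h1
    obtain ⟨a, ha, x, hx, hax⟩ := h2
    refine d.three_le hx hy ?_
    rintro rfl
    rcases hQ a ha b hb l hlI x hx with h' | h'
    · exact hax h'
    · exact hby h'
  obtain ⟨a, ha⟩ := hA
  obtain ⟨b, hb⟩ := hB
  have haS : a ∈ S := Nb_sub _ (hAX ha)
  have hbS : b ∈ S := Nb_sub _ (mem_sdiff.1 hb).1
  have hfin : ∀ i ∈ I \ (I1 ∪ I2), ∀ j ∈ I \ (I1 ∪ I2), i ≠ j →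
      th G (D j) ≤ th G (D i) → False := by
    intro i hi j hj hij hle
    obtain ⟨F, hF1, hF2⟩ := construct h d hij hle (hbig j hj).2 haS hbS
      (fun x hx => hQ a ha b hb j (hbig j hj).1 x hx)
    have := h.no F hF1
    omega
  rcases le_total (th G (D j)) (th G (D i)) with hle | hle
  · exact hfin i hi j hj hij hle
  · exact hfin j hj i hi hij.symm hle

end dec

/-- every stable set extends to a maximal one -/
theorem exists_maxstable {V : Type} [Fintype V] {G : SimpleGraph V} {A : Finset V}
    (hA : ∀ u ∈ A, ∀ v ∈ A, ¬ G.Adj u v) : ∃ T : Finset V, A ⊆ T ∧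
      (∀ u ∈ T, ∀ v ∈ T, ¬ G.Adj u v) ∧ ∀ v, v ∉ T → ∃ s ∈ T, G.Adj v s := by
  obtain ⟨T, hT, hTmax⟩ := Finset.exists_max_image
    ((univ : Finset (Finset V)).filter (fun T => A ⊆ T ∧
      ∀ u ∈ T, ∀ v ∈ T, ¬ G.Adj u v)) Finset.card ⟨A, by
      simp only [mem_filter, mem_univ, true_and]
      exact ⟨Finset.Subset.refl _, hA⟩⟩
  simp only [mem_filter, mem_univ, true_and] at hT hTmax
  obtain ⟨hTA, hTst⟩ := hT
  refine ⟨T, hTA, hTst, ?_⟩
  intro v hv
  by_contra hcon
  push Not at hcon
  have h1 := hTmax (insert v T) ⟨hTA.trans (subset_insert _ _), by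
    intro x hx y hy
    rcases mem_insert.1 hx with rfl | hx' <;> rcases mem_insert.1 hy with rfl | hy'
    · exact G.loopless.irrefl _
    · exact hcon y hy'
    · exact fun e => hcon x hx' e.symm
    · exact hTst x hx' y hy'⟩
  rw [card_insert_of_notMem hv] at h1
  omega

/-- Theorem M': every maximal stable set `T` has two elements, `V - T` is critical with chromatic
number `k` and connected in the complementary graph -/
theorem Ctx.maxstable {V : Type} [Fintype V] {G : SimpleGraph V} {k : ℕ} (h : Ctx G k)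
    (hk : 1 ≤ k) {T : Finset V} (hTst : ∀ u ∈ T, ∀ v ∈ T, ¬ G.Adj u v)
    (hTt : ∀ v, v ∉ T → ∃ s ∈ T, G.Adj v s) :
    T.card = 2 ∧ (∀ d, d ∉ T → th G (Tᶜ.erase d) + 1 ≤ k) ∧
      (Gᶜ.induce ((Tᶜ : Finset V) : Set V)).Preconnected := by
  have hTne : T.Nonempty := by
    by_contra hcon
    rw [not_nonempty_iff_eq_empty] at hcon
    have hV : 0 < Fintype.card V := by
      have := h.hn
      omega
    obtain ⟨v⟩ := Fintype.card_pos_iff.1 hV
    obtain ⟨s, hs, -⟩ := hTt v (by rw [hcon]; exact notMem_empty v)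
    rw [hcon] at hs
    exact notMem_empty s hs
  obtain ⟨D0, h1, h2, h3⟩ := h.exists_D0 hTst
  rcases h.exists_dec' hk hTne hTt h1 h2 h3 with ⟨ι, fι, D, S, d⟩ | ⟨h4, h5⟩
  · exact (d.contra h).elim
  · have hsub : T ⊆ D0ᶜ := by
      intro x hx
      rw [mem_compl]
      exact fun h' => (mem_compl.1 (h1 h')) hx
    have hT2 : 2 ≤ T.card := by
      by_contra hcon
      have hT1 : T.card = 1 := by
        have := card_pos.2 hTne
        omega
      obtain ⟨v, hv⟩ := card_eq_one.1 hT1
      obtain ⟨a, ha, b, hb, hab⟩ := h.exists_nonadj hTne (by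
        intro he
        have h6 := h.hn
        rw [he, card_univ] at hT1
        omega)
      obtain ⟨s, hs, hbs⟩ := hTt b hb
      rw [hv, mem_singleton] at ha hs
      rw [hs, ← ha] at hbs
      exact hab hbs.symm
    have hTD : T = D0ᶜ := eq_of_subset_of_card_le hsub (by omega)
    have hDT : D0 = Tᶜ := by rw [hTD, compl_compl]
    refine ⟨by rw [hTD]; exact h4, ?_, ?_⟩
    · intro x hx
      rw [← hDT]
      apply h3
      rw [hDT, mem_compl]
      exact hx
    · rw [← hDT]
      exact h5

/-- Theorem M, internal form -/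
theorem Ctx.alpha_two {V : Type} [Fintype V] {G : SimpleGraph V} {k : ℕ} (h : Ctx G k) {a b c : V}
    (hab : a ≠ b) (hac : a ≠ c) (hbc : b ≠ c) : G.Adj a b ∨ G.Adj a c ∨ G.Adj b c := by
  by_contra hcon
  push Not at hcon
  obtain ⟨h1, h2, h3⟩ := hcon
  have hst : ∀ u ∈ ({a, b, c} : Finset V), ∀ v ∈ ({a, b, c} : Finset V), ¬ G.Adj u v := by
    have irr : ∀ x, ¬ G.Adj x x := fun x => G.loopless.irrefl x
    intro u hu v hv
    simp only [mem_insert, mem_singleton] at hu hv
    rcases hu with rfl | rfl | rfl <;> rcases hv with rfl | rfl | rfl <;>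
      first | exact irr _ | assumption | (intro e; exact absurd e.symm (by assumption))
  obtain ⟨T, hT1, hT2, hT3⟩ := exists_maxstable hst
  have hc3 : ({a, b, c} : Finset V).card = 3 := by
    rw [Finset.card_eq_three]
    exact ⟨a, b, c, hab, hac, hbc, rfl⟩
  have hT4 := card_le_card hT1
  have hk : 1 ≤ k := by
    have h4 := h.hn
    have h5 : T.card ≤ Fintype.card V := by
      rw [← card_univ]
      exact card_le_card (subset_univ _)
    omega
  have := (h.maxstable hk hT2 hT3).1
  omega

end Pool.Agent.HM
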