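import Mathlib
import Pool.Agent.CA31.Closure
import Pool.Agent.CA72.MinCE
import Pool.Agent.HM.Main

/-!
# HM: Theorem M

A minimal counterexample to Hadwiger's conjecture with `2 k + 1` vertices, where `k + 1` is its
chromatic number, has no stable set with three elements. More precisely, every maximal stable set has
two elements, its complement is vertex-critical with chromatic number `k` and connected in the
complementary graph.
-/

set_option autoImplicit false

namespace Pool.Agent.HM

open Finset Pool.Agent.CA31 Pool.Agent.CA72 Pool.Agent.CA31C
open scoped Classical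

/-- minimal counterexamples satisfy the internal hypotheses -/
theorem ctx_of {V : Type} [Fintype V] {G : SimpleGraph V} {k : ℕ} (hk : ¬ G.Colorable k)
    (hcc : ConCrit G k)
    (hmin : ∀ A : Set V, A ≠ Set.univ → ∀ t : ℕ, ¬ (G.induce A).Colorable t →
      HasMinor (G.induce A) (t + 1))
    (hno : ¬ HasMinor G (k + 1)) (hn : Fintype.card V = 2 * k + 1) : Ctx G k where
  nc := by
    by_contra hcon
    exact hk ((colOn_univ_iff G k).1 (th_le_iff.1 (by omega)))
  min := by
    intro S hS
    rcases Nat.eq_zero_or_pos (th G S) with h0 | hpos
    · exact ⟨∅, isM_empty, fun B hB => absurd hB (notMem_empty _), by rw [h0, card_empty]⟩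
    · obtain ⟨t, ht⟩ : ∃ t, th G S = t + 1 := ⟨th G S - 1, by omega⟩
      have h1 : ¬ (G.induce (S : Set V)).Colorable t := by
        rintro ⟨C⟩
        have : ColOn G S t := by
          refine ⟨fun v => if h : v ∈ S then (C ⟨v, h⟩ : ℕ) else 0, ?_, ?_⟩
          · intro v hv
            simp only [hv, dif_pos]
            exact (C ⟨v, hv⟩).2
          · intro u hu v hv huv
            simp only [hu, hv, dif_pos]
            intro he
            exact C.valid (show (G.induce (S : Set V)).Adj ⟨u, hu⟩ ⟨v, hv⟩ from huv) (Fin.ext he)
        have := th_le_iff.2 this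
        omega
      have h2 := hmin (S : Set V) (fun he => hS (Finset.coe_eq_univ.1 he)) t h1
      rw [ht]
      exact exists_isM h2
  con := by
    intro C hC hC2
    let f : Option {v : V // v ∉ C} → Set V := fun w => match w with
      | none => (C : Set V)
      | some v => {v.1}
    have hcard : Fintype.card (Option {v : V // v ∉ C}) < Fintype.card V := by
      rw [Fintype.card_option]
      have h1 : Fintype.card {v : V // v ∉ C} = Fintype.card V - C.card := by
        rw [Fintype.card_subtype_compl, Fintype.card_coe]
      have h2 : C.card ≤ Fintype.card V := by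
        rw [← card_univ]
        exact card_le_card (subset_univ _)
      omega
    obtain ⟨c⟩ := hcc (Option {v : V // v ∉ C}) f (by
      rintro (_ | v)
      · exact hC
      · exact singleton_conn G v.1) (by
      rintro (_ | v) (_ | w) hne
      · exact absurd rfl hne
      · show Disjoint (C : Set V) {w.1}
        rw [Set.disjoint_singleton_right]
        exact fun h => w.2 (mem_coe.1 h)
      · show Disjoint ({v.1} : Set V) (C : Set V)
        rw [Set.disjoint_singleton_left]
        exact fun h => v.2 (mem_coe.1 h)
      · show Disjoint ({v.1} : Set V) {w.1}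
        rw [Set.disjoint_singleton]
        exact fun e => hne (by rw [Subtype.ext e])) hcard
    refine ⟨fun v => if h : v ∈ C then c none else c (some ⟨v, h⟩), ?_, ?_⟩
    · intro u hu v hv
      simp only [hu, hv, dif_pos]
    · intro u v huv hnot
      by_cases hu : u ∈ C <;> by_cases hv : v ∈ C
      · rcases hnot with h | h
        · exact absurd hu h
        · exact absurd hv h
      · simp only [hu, hv, dif_pos, dif_neg, not_false_eq_true]
        apply c.valid
        exact ⟨(fun e => by cases e), u, hu, v, rfl, huv⟩
      · simp only [hu, hv, dif_pos, dif_neg, not_false_eq_true]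
        apply c.valid
        exact ⟨(fun e => by cases e), u, rfl, v, hv, huv⟩
      · simp only [hu, hv, dif_neg, not_false_eq_true]
        apply c.valid
        refine ⟨fun e => ?_, u, rfl, v, rfl, huv⟩
        injection e with e
        exact huv.ne (congrArg Subtype.val e)
  no := by
    intro F hF
    by_contra hcon
    exact hno (hasMinor_mono (by omega) hF.hasMinor)
  hn := hn

/-- Theorem M: a minimal counterexample to Hadwiger's conjecture with chromatic number `k + 1` and
`2 k + 1` vertices has no stable set with three elements -/
theorem alpha_two {V : Type} [Fintype V] {G : SimpleGraph V} {k : ℕ} (hk : ¬ G.Colorable k)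
    (hcc : ConCrit G k)
    (hmin : ∀ A : Set V, A ≠ Set.univ → ∀ t : ℕ, ¬ (G.induce A).Colorable t →
      HasMinor (G.induce A) (t + 1))
    (hno : ¬ HasMinor G (k + 1)) (hn : Fintype.card V = 2 * k + 1) (a b c : V) (hab : a ≠ b)
    (hac : a ≠ c) (hbc : b ≠ c) : G.Adj a b ∨ G.Adj a c ∨ G.Adj b c :=
  (ctx_of hk hcc hmin hno hn).alpha_two hab hac hbc

end Pool.Agent.HM
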