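import Mathlib
import Pool.Agent.CA31.Closure
import Pool.Agent.CA72.MinCE
import Pool.Agent.T3.Gal
import Pool.Agent.T2S.Room
import Pool.Agent.HM.Final

/-!
# HM: the reduction of Hadwiger's conjecture in classes closed under quotients

In a class of graphs closed under quotients by disjoint connected sets it is enough to prove
Hadwiger's conjecture for contraction-critical graphs with at least `2 k + 2` vertices and for those
with `2 k + 1` vertices and no stable set with three elements, where `k + 1` is the chromatic number.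
-/

set_option autoImplicit false

namespace Pool.Agent.HM

open Finset Pool.Agent.CA31 Pool.Agent.CA72 Pool.Agent.CA31C Pool.Agent.T3
open scoped Classical

theorem hasMinor_of_clq {V : Type} {G : SimpleGraph V} {m : ℕ} {K : Finset V}
    (hK : ∀ x ∈ K, ∀ y ∈ K, x ≠ y → G.Adj x y) (hm : m ≤ K.card) : HasMinor G m := by
  let e := K.equivFin.symm
  have hinj : ∀ i j : Fin m, i ≠ j → ((e (Fin.castLE hm i)).1 ≠ (e (Fin.castLE hm j)).1) := by
    intro i j hij he
    exact hij (Fin.castLE_injective hm (e.injective (Subtype.ext he)))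
  refine ⟨fun i => {(e (Fin.castLE hm i)).1}, fun i => singleton_conn G _, ?_, ?_⟩
  · intro i j hij
    rw [Set.disjoint_singleton]
    exact hinj i j hij
  · intro i j hij
    exact ⟨_, rfl, _, rfl, hK _ (e _).2 _ (e _).2 (hinj i j hij)⟩

/-- the reduction -/
theorem reduce (P : ∀ (V : Type), SimpleGraph V → Prop)
    (hq : ∀ (V W : Type) (G : SimpleGraph V) (f : W → Set V), P V G →
      (∀ i, (G.induce (f i)).Connected) → (∀ i j, i ≠ j → Disjoint (f i) (f j)) → P W (QG G f))
    (H : ∀ (V : Type) [Fintype V] (G : SimpleGraph V) (k : ℕ), P V G → ¬ G.Colorable k → ConCrit G k →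
      (∀ Q : Finset V, (∀ x ∈ Q, ∀ y ∈ Q, x ≠ y → G.Adj x y) → Q.card ≤ k) →
      (2 * k + 2 ≤ Fintype.card V ∨ (Fintype.card V = 2 * k + 1 ∧
        ∀ a b c : V, a ≠ b → a ≠ c → b ≠ c → G.Adj a b ∨ G.Adj a c ∨ G.Adj b c)) →
      HasMinor G (k + 1))
    (V : Type) [Fintype V] (G : SimpleGraph V) (k : ℕ) (hG : P V G) (hk : ¬ G.Colorable k) :
    HasMinor G (k + 1) := by
  suffices haux : ∀ n : ℕ, ∀ (V : Type) [Fintype V] (G : SimpleGraph V), P V G →
      Fintype.card V = n → ∀ k : ℕ, ¬ G.Colorable k → HasMinor G (k + 1) from haux _ V G hG rfl k hk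
  clear hk hG
  intro n
  induction n using Nat.strong_induction_on with
  | _ n ih =>
    intro V _ G hG hn k hk
    by_contra hno
    have hcc : ConCrit G k := by
      intro W _ f hc hd hlt
      by_contra hcol
      exact hno (hasMinor_of_quot hc hd (ih _ (hn ▸ hlt) W (QG G f) (hq V W G f hG hc hd) rfl k hcol))
    have hV : Nonempty V := by
      by_contra h
      have : IsEmpty V := not_nonempty_iff.1 h
      exact hk ⟨SimpleGraph.Coloring.mk (fun v => (this.false v).elim)
        (fun {u v} _ => (this.false u).elim)⟩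
    have hmin : ∀ A : Set V, A ≠ Set.univ → ∀ t : ℕ, ¬ (G.induce A).Colorable t →
        HasMinor (G.induce A) (t + 1) := by
      intro A hA t ht
      obtain ⟨v, hv⟩ := (Set.ne_univ_iff_exists_notMem A).1 hA
      have hlt : Fintype.card A < n := by
        rw [← hn]
        exact Fintype.card_subtype_lt (x := v) hv
      exact ih _ hlt A (G.induce A) (T2S.class_induce hq hG A) rfl t ht
    have hcrit : ∀ v, (G.induce {w | w ≠ v}).Colorable k := by
      intro v
      by_contra hcol
      apply hno
      refine hasMinor_of_induce (A := {w | w ≠ v}) (hmin _ ?_ k hcol)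
      rw [Set.ne_univ_iff_exists_notMem]
      exact ⟨v, fun h => h rfl⟩
    have hconn : Gᶜ.Preconnected := by
      by_contra hcon
      unfold SimpleGraph.Preconnected at hcon
      push Not at hcon
      obtain ⟨u, v, huv⟩ := hcon
      set A : Set V := {w | Gᶜ.Reachable u w} with hA
      have huA : u ∈ A := SimpleGraph.Reachable.refl u
      have hvA : v ∉ A := huv
      have hjoin : ∀ a ∈ A, ∀ b ∈ Aᶜ, G.Adj a b := by
        intro a ha b hb
        by_contra h
        have hne : a ≠ b := by
          rintro rfl
          exact hb ha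
        have h1 : Gᶜ.Adj a b := by
          rw [SimpleGraph.compl_adj]
          exact ⟨hne, h⟩
        exact hb (SimpleGraph.Reachable.trans ha h1.reachable)
      have hAu : A ≠ Set.univ := by
        rw [Set.ne_univ_iff_exists_notMem]
        exact ⟨v, hvA⟩
      have hAcu : Aᶜ ≠ Set.univ := by
        rw [Set.ne_univ_iff_exists_notMem]
        exact ⟨u, fun h => h huA⟩
      obtain ⟨a, ha1, ha2⟩ := exists_chi (G.induce A)
      obtain ⟨b, hb1, hb2⟩ := exists_chi (G.induce Aᶜ)
      have hmA : HasMinor (G.induce A) a := minor_of_chi (fun t ht => hmin A hAu t ht) ha2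
      have hmB : HasMinor (G.induce Aᶜ) b := minor_of_chi (fun t ht => hmin Aᶜ hAcu t ht) hb2
      have hab : k + 1 ≤ a + b := by
        by_contra hlt
        exact hk ((colorable_join ha1 hb1).mono (by omega))
      exact hno (hasMinor_mono hab (hasMinor_join hjoin hmA hmB))
    have hgal := gallai_card hk hcrit hconn
    have hclq : ∀ Q : Finset V, (∀ x ∈ Q, ∀ y ∈ Q, x ≠ y → G.Adj x y) → Q.card ≤ k := by
      intro Q hQ
      by_contra h
      exact hno (hasMinor_of_clq hQ (by omega))
    refine hno (H V G k hG hk hcc hclq ?_)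
    rcases Nat.lt_or_ge (2 * k + 1) (Fintype.card V) with h1 | h1
    · exact Or.inl h1
    · have h2 : Fintype.card V = 2 * k + 1 := le_antisymm h1 hgal
      exact Or.inr ⟨h2, fun a b c hab hac hbc => alpha_two hk hcc hmin hno h2 a b c hab hac hbc⟩

end Pool.Agent.HM
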